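import Mathlib

namespace Pool.Agent.Lib.MP_3f2714_al

open Order

universe u

variable {Ω : Type u}

section

variable (J : ∀ n : ℕ, (Fin n → Ω) → (Fin n → Ω) → Prop)

/-- a set of pairs all of whose finite tuples are related by `J` -/
def Good (s : Set (Ω × Ω)) : Prop :=
  ∀ (n : ℕ) (p : Fin n → Ω × Ω), (∀ i, p i ∈ s) → J n (fun i => (p i).1) (fun i => (p i).2)

theorem good_extend
    (hcomp : ∀ {n m : ℕ} (a b : Fin n → Ω) (s : Fin m → Fin n), J n a b → J m (a ∘ s) (b ∘ s))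
    (hforth : ∀ {n : ℕ} (a b : Fin n → Ω), J n a b → ∀ x : Ω, ∃ y : Ω,
      J (n + 1) (Fin.snoc a x : Fin (n + 1) → Ω) (Fin.snoc b y : Fin (n + 1) → Ω))
    {s : Set (Ω × Ω)} (hs : s.Finite) (hg : Good J s) (x : Ω) :
    ∃ y : Ω, Good J (insert (x, y) s) := by
  have := hs.to_subtype
  obtain ⟨n, ⟨e⟩⟩ := Finite.exists_equiv_fin s
  have h0 : J n (fun i => ((e.symm i : s) : Ω × Ω).1) (fun i => ((e.symm i : s) : Ω × Ω).2) :=
    hg n (fun i => ((e.symm i : s) : Ω × Ω)) (fun i => (e.symm i).2)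
  obtain ⟨y, hy⟩ := hforth _ _ h0 x
  refine ⟨y, fun m q hq => ?_⟩
  have hch : ∀ i, ∃ k : Fin (n + 1),
      (Fin.snoc (fun i => ((e.symm i : s) : Ω × Ω).1) x : Fin (n + 1) → Ω) k = (q i).1 ∧
      (Fin.snoc (fun i => ((e.symm i : s) : Ω × Ω).2) y : Fin (n + 1) → Ω) k = (q i).2 := by
    intro i
    rcases hq i with h | h
    · refine ⟨Fin.last n, ?_, ?_⟩ <;> simp [h]
    · refine ⟨Fin.castSucc (e ⟨q i, h⟩), ?_, ?_⟩ <;> simp
  choose k hk1 hk2 using hch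
  have := hcomp _ _ k hy
  have e1 : (Fin.snoc (fun i => ((e.symm i : s) : Ω × Ω).1) x : Fin (n + 1) → Ω) ∘ k =
    fun i => (q i).1 := funext hk1
  have e2 : (Fin.snoc (fun i => ((e.symm i : s) : Ω × Ω).2) y : Fin (n + 1) → Ω) ∘ k =
    fun i => (q i).2 := funext hk2
  rwa [e1, e2] at this

theorem good_swap (hsymm : ∀ {n : ℕ} (a b : Fin n → Ω), J n a b → J n b a)
    {s : Set (Ω × Ω)} (hg : Good J s) : Good J (Prod.swap ⁻¹' s) := by
  intro n p hp
  exact hsymm _ _ (hg n (fun i => (p i).swap) hp)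

/-- back and forth on a countable set -/
theorem back_and_forth [Countable Ω]
    (hcomp : ∀ {n m : ℕ} (a b : Fin n → Ω) (s : Fin m → Fin n), J n a b → J m (a ∘ s) (b ∘ s))
    (heq : ∀ {n : ℕ} (a b : Fin n → Ω), J n a b → ∀ i j, a i = a j ↔ b i = b j)
    (hforth : ∀ {n : ℕ} (a b : Fin n → Ω), J n a b → ∀ x : Ω, ∃ y : Ω,
      J (n + 1) (Fin.snoc a x : Fin (n + 1) → Ω) (Fin.snoc b y : Fin (n + 1) → Ω))
    (hsymm : ∀ {n : ℕ} (a b : Fin n → Ω), J n a b → J n b a)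
    {n : ℕ} (a b : Fin n → Ω) (hab : J n a b) :
    ∃ g : Equiv.Perm Ω, (∀ i, g (a i) = b i) ∧
      ∀ (m : ℕ) (c : Fin m → Ω), J m c (fun i => g (c i)) := by
  classical
  let P := {s : Set (Ω × Ω) // s.Finite ∧ Good J s}
  have hext1 : ∀ (s : P) (x : Ω), ∃ t : P, s ≤ t ∧ ∃ y, (x, y) ∈ t.1 := by
    intro s x
    obtain ⟨y, hy⟩ := good_extend J hcomp hforth s.2.1 s.2.2 x
    exact ⟨⟨insert (x, y) s.1, s.2.1.insert _, hy⟩, Set.subset_insert _ _, y,
      Set.mem_insert _ _⟩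
  have hext2 : ∀ (s : P) (y : Ω), ∃ t : P, s ≤ t ∧ ∃ x, (x, y) ∈ t.1 := by
    intro s y
    have hfin : (Prod.swap ⁻¹' s.1 : Set (Ω × Ω)).Finite :=
      s.2.1.preimage Prod.swap_injective.injOn
    obtain ⟨x, hx⟩ := good_extend J hcomp hforth hfin (good_swap J hsymm s.2.2) y
    have h3 := good_swap J hsymm hx
    have h4 : (Prod.swap ⁻¹' (insert (y, x) (Prod.swap ⁻¹' s.1)) : Set (Ω × Ω)) =
        insert (x, y) s.1 := by
      ext ⟨p, q⟩
      simp [Prod.ext_iff, and_comm]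
    rw [h4] at h3
    exact ⟨⟨insert (x, y) s.1, s.2.1.insert _, h3⟩, Set.subset_insert _ _, x,
      Set.mem_insert _ _⟩
  let D : Ω ⊕ Ω → Cofinal P := fun z => match z with
    | Sum.inl x => ⟨{t | ∃ y, (x, y) ∈ t.1}, fun s => by
        obtain ⟨t, h1, h2⟩ := hext1 s x
        exact ⟨t, h2, h1⟩⟩
    | Sum.inr y => ⟨{t | ∃ x, (x, y) ∈ t.1}, fun s => by
        obtain ⟨t, h1, h2⟩ := hext2 s y
        exact ⟨t, h2, h1⟩⟩
  let _ : Encodable (Ω ⊕ Ω) := Encodable.ofCountable _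
  let s0 : P := ⟨Set.range (fun i => (a i, b i)), Set.finite_range _, by
    intro m q hq
    choose k hk using hq
    have := hcomp _ _ k hab
    have e1 : a ∘ k = fun i => (q i).1 := by
      funext i; simp [← hk i]
    have e2 : b ∘ k = fun i => (q i).2 := by
      funext i; simp [← hk i]
    rwa [e1, e2] at this⟩
  let I := idealOfCofinals s0 D
  have hI0 : s0 ∈ I := mem_idealOfCofinals s0 D
  let S : Set (Ω × Ω) := {q | ∃ t ∈ I, q ∈ t.1}
  have hS : Good J S := by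
    have hcommon : ∀ (m : ℕ) (q : Fin m → Ω × Ω), (∀ i, q i ∈ S) → ∃ t ∈ I, ∀ i, q i ∈ t.1 := by
      intro m
      induction m with
      | zero => intro q _; exact ⟨s0, hI0, fun i => i.elim0⟩
      | succ m ih =>
        intro q hq
        obtain ⟨t, ht, h1⟩ := ih (fun i => q i.succ) (fun i => hq i.succ)
        obtain ⟨t', ht', h2⟩ := hq 0
        obtain ⟨r, hr, h3, h4⟩ := I.directed t ht t' ht'
        refine ⟨r, hr, fun i => ?_⟩
        refine Fin.cases ?_ ?_ i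
        · exact h4 h2
        · exact fun j => h3 (h1 j)
    intro m q hq
    obtain ⟨t, _, h⟩ := hcommon m q hq
    exact t.2.2 m q h
  have hpair : ∀ p ∈ S, ∀ q ∈ S, (p.1 = q.1 ↔ p.2 = q.2) := by
    intro p hp q hq
    have := hS 2 ![p, q] (by
      intro i
      fin_cases i
      · exact hp
      · exact hq)
    have := heq _ _ this 0 1
    simpa using this
  have htot : ∀ x, ∃ y, (x, y) ∈ S := by
    intro x
    obtain ⟨t, ht, hI⟩ := cofinal_meets_idealOfCofinals s0 D (Sum.inl x)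
    obtain ⟨y, hy⟩ := ht
    exact ⟨y, t, hI, hy⟩
  have htot' : ∀ y, ∃ x, (x, y) ∈ S := by
    intro y
    obtain ⟨t, ht, hI⟩ := cofinal_meets_idealOfCofinals s0 D (Sum.inr y)
    obtain ⟨x, hx⟩ := ht
    exact ⟨x, t, hI, hx⟩
  choose f hf using htot
  choose f' hf' using htot'
  refine ⟨⟨f, f', fun x => ?_, fun y => ?_⟩, fun i => ?_, fun m c => ?_⟩
  · exact ((hpair _ (hf' (f x)) _ (hf x)).2 rfl)
  · exact ((hpair _ (hf (f' y)) _ (hf' y)).1 rfl)
  · exact ((hpair _ (hf (a i)) (a i, b i) ⟨s0, hI0, ⟨i, rfl⟩⟩).1 rfl)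
  · exact hS m (fun i => (c i, f (c i))) (fun i => hf (c i))

end

end Pool.Agent.Lib.MP_3f2714_al
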