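import Mathlib.GroupTheory.Perm.Basic
import Mathlib.SetTheory.Cardinal.Finite
import Mathlib.Algebra.Group.Subgroup.Defs

namespace Pool.Agent.Lib.MP_3f2714_al

universe u

variable {Ω : Type u}

/-- Two `n`-tuples of points lie in the same orbit of the permutation group `G`. -/
def SameOrbit (G : Subgroup (Equiv.Perm Ω)) {n : ℕ} (a b : Fin n → Ω) : Prop :=
  ∃ g ∈ G, ∀ i, g (a i) = b i

/-- The partition of `Ω ^ n` into `G`-orbits. -/
def tupleOrbits (G : Subgroup (Equiv.Perm Ω)) (n : ℕ) : Setoid (Fin n → Ω) where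
  r := SameOrbit G
  iseqv :=
    { refl := fun a => ⟨1, G.one_mem, fun _ => rfl⟩
      symm := fun {a b} h => by
        obtain ⟨g, hg, h⟩ := h
        refine ⟨g⁻¹, G.inv_mem hg, fun i => ?_⟩
        rw [← h i]
        exact g.symm_apply_apply (a i)
      trans := fun {a b c} h h' => by
        obtain ⟨g, hg, h⟩ := h
        obtain ⟨g', hg', h'⟩ := h'
        refine ⟨g' * g, G.mul_mem hg' hg, fun i => ?_⟩
        rw [Equiv.Perm.mul_apply, h i, h' i] }

/-- The partition of the set of `n`-tuples of pairwise distinct points into `G`-orbits. -/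
def distinctTupleOrbits (G : Subgroup (Equiv.Perm Ω)) (n : ℕ) :
    Setoid {a : Fin n → Ω // Function.Injective a} :=
  (tupleOrbits G n).comap Subtype.val

/-- `G` is oligomorphic: for every `n ≥ 1` it has only finitely many orbits on `Ω ^ n`. -/
def IsOligomorphic (G : Subgroup (Equiv.Perm Ω)) : Prop :=
  ∀ n : ℕ, 1 ≤ n → Finite (Quotient (tupleOrbits G n))

/-- `F G n` is the number of `G`-orbits on ordered `n`-tuples of pairwise distinct points. -/
noncomputable def F (G : Subgroup (Equiv.Perm Ω)) (n : ℕ) : ℕ :=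
  Nat.card (Quotient (distinctTupleOrbits G n))

/-- `G` is primitive: it is transitive and preserves no equivalence relation other than
equality and the universal relation. -/
def IsPrimitive (G : Subgroup (Equiv.Perm Ω)) : Prop :=
  (∀ a b : Ω, ∃ g ∈ G, g a = b) ∧
    ∀ r : Setoid Ω, (∀ g ∈ G, ∀ a b : Ω, r a b → r (g a) (g b)) →
      (∀ a b : Ω, r a b → a = b) ∨ (∀ a b : Ω, r a b)

end Pool.Agent.Lib.MP_3f2714_al
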