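import Mathlib
import Pool.Agent.Lib.MP_3f2714_al.Defs

namespace Pool.Agent.Lib.MP_3f2714_al

universe u

variable {Ω : Type u} {G : Subgroup (Equiv.Perm Ω)} {n m : ℕ}

theorem SameOrbit.refl (a : Fin n → Ω) : SameOrbit G a a := ⟨1, G.one_mem, fun _ => rfl⟩

theorem SameOrbit.symm {a b : Fin n → Ω} (h : SameOrbit G a b) : SameOrbit G b a :=
  (tupleOrbits G n).iseqv.symm h

theorem SameOrbit.trans {a b c : Fin n → Ω} (h : SameOrbit G a b) (h' : SameOrbit G b c) :
    SameOrbit G a c := (tupleOrbits G n).iseqv.trans h h'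

theorem SameOrbit.comp {a b : Fin n → Ω} (h : SameOrbit G a b) (s : Fin m → Fin n) :
    SameOrbit G (a ∘ s) (b ∘ s) := by
  obtain ⟨g, hg, h⟩ := h
  exact ⟨g, hg, fun i => h (s i)⟩

theorem mk_eq_iff {a b : {a : Fin n → Ω // Function.Injective a}} :
    (Quotient.mk (distinctTupleOrbits G n) a = Quotient.mk (distinctTupleOrbits G n) b) ↔
      SameOrbit G a.1 b.1 := by
  rw [Quotient.eq]; rfl

/-- lower bound for the number of orbits -/
theorem card_le_F {ι : Type*} [Finite ι] (hF : F G n ≠ 0) (t : ι → Fin n → Ω)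
    (hinj : ∀ i, Function.Injective (t i))
    (h : ∀ i j, SameOrbit G (t i) (t j) → i = j) : Nat.card ι ≤ F G n := by
  have : Finite (Quotient (distinctTupleOrbits G n)) := Nat.finite_of_card_ne_zero hF
  refine Nat.card_le_card_of_injective
    (fun i => Quotient.mk (distinctTupleOrbits G n) ⟨t i, hinj i⟩) ?_
  intro i j hij
  exact h i j (mk_eq_iff.1 hij)

/-- upper bound for the number of orbits -/
theorem F_le_card {κ : Type*} [Finite κ] (c : (Fin n → Ω) → κ)
    (h : ∀ a b : Fin n → Ω, Function.Injective a → Function.Injective b → c a = c b →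
      SameOrbit G a b) : F G n ≤ Nat.card κ := by
  refine Nat.card_le_card_of_injective
    (fun q : Quotient (distinctTupleOrbits G n) => c (q.out).1) ?_
  intro q q' hq
  have := h _ _ q.out.2 q'.out.2 hq
  have h2 := (mk_eq_iff (a := q.out) (b := q'.out)).2 this
  rwa [Quotient.out_eq, Quotient.out_eq] at h2

/-- upper bound for the number of orbits, with an invariant of injective tuples only -/
theorem F_le_card_sub {κ : Type*} [Finite κ] (c : {a : Fin n → Ω // Function.Injective a} → κ)
    (h : ∀ a b, c a = c b → SameOrbit G a.1 b.1) : F G n ≤ Nat.card κ := by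
  refine Nat.card_le_card_of_injective
    (fun q : Quotient (distinctTupleOrbits G n) => c q.out) ?_
  intro q q' hq
  have := h _ _ hq
  have h2 := (mk_eq_iff (a := q.out) (b := q'.out)).2 this
  rwa [Quotient.out_eq, Quotient.out_eq] at h2

theorem finite_of_invariant {κ : Type*} [Finite κ] (c : (Fin n → Ω) → κ)
    (h : ∀ a b : Fin n → Ω, c a = c b → SameOrbit G a b) :
    Finite (Quotient (tupleOrbits G n)) := by
  refine Finite.of_injective
    (fun q : Quotient (tupleOrbits G n) => c q.out) ?_
  intro q q' hq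
  have := h _ _ hq
  have h2 : Quotient.mk (tupleOrbits G n) q.out = Quotient.mk (tupleOrbits G n) q'.out :=
    Quotient.sound this
  rwa [Quotient.out_eq, Quotient.out_eq] at h2

theorem finite_distinct (hG : Finite (Quotient (tupleOrbits G n))) :
    Finite (Quotient (distinctTupleOrbits G n)) := by
  refine Finite.of_injective
    (fun q : Quotient (distinctTupleOrbits G n) => Quotient.mk (tupleOrbits G n) q.out.1) ?_
  intro q q' hq
  have h1 : SameOrbit G q.out.1 q'.out.1 := Quotient.exact hq
  have h2 := (mk_eq_iff (a := q.out) (b := q'.out)).2 h1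
  rwa [Quotient.out_eq, Quotient.out_eq] at h2

theorem nonempty_distinct [Infinite Ω] : Nonempty (Quotient (distinctTupleOrbits G n)) := by
  let f : Fin n ↪ Ω := Fin.valEmbedding.trans (Infinite.natEmbedding Ω)
  exact ⟨Quotient.mk _ ⟨f, f.injective⟩⟩

theorem F_pos [Infinite Ω] (hG : Finite (Quotient (tupleOrbits G n))) : F G n ≠ 0 := by
  have := finite_distinct hG
  have := nonempty_distinct (G := G) (n := n)
  exact Nat.card_ne_zero.2 ⟨inferInstance, inferInstance⟩

/-- if `F G n = 1` all injective tuples are equivalent -/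
theorem sameOrbit_of_F_eq_one (hF : F G n = 1) {a b : Fin n → Ω} (ha : Function.Injective a)
    (hb : Function.Injective b) : SameOrbit G a b := by
  have h1 : Subsingleton (Quotient (distinctTupleOrbits G n)) :=
    (Nat.card_eq_one_iff_unique.1 hF).1
  have := Subsingleton.elim (Quotient.mk (distinctTupleOrbits G n) ⟨a, ha⟩)
    (Quotient.mk (distinctTupleOrbits G n) ⟨b, hb⟩)
  exact mk_eq_iff.1 this

end Pool.Agent.Lib.MP_3f2714_al
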