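import Mathlib
import Pool.Agent.Lib.MP_3f2714_al.Basic
import Pool.Agent.Lib.MP_3f2714_al.BackForth

namespace Pool.Agent.Lib.MP_3f2714_al

section General

variable {E : Type*} [AddCommGroup E] [Module (ZMod 2) E] {n m : ℕ}

theorem dbl (x : E) : x + x = 0 := by
  have h : ((1 : ZMod 2) + 1) • x = 0 := by
    rw [show ((1 : ZMod 2) + 1) = 0 by decide, zero_smul]
  simpa [add_smul] using h

theorem eq_of_add_zero {x y : E} (h : x + y = 0) : x = y := by
  have := congrArg (· + y) h
  simpa [add_assoc, dbl] using this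

theorem add_zero_iff {x y : E} : x + y = 0 ↔ x = y :=
  ⟨eq_of_add_zero, fun h => by rw [h, dbl]⟩

/-- linear combination of a tuple with coefficients in the field with two elements -/
def comb (c : Fin n → ZMod 2) (a : Fin n → E) : E := ∑ i, c i • a i

theorem comb_add (c d : Fin n → ZMod 2) (a : Fin n → E) :
    comb (c + d) a = comb c a + comb d a := by
  simp [comb, add_smul, Finset.sum_add_distrib]

theorem sum_add (c d : Fin n → ZMod 2) : ∑ i, (c + d) i = ∑ i, c i + ∑ i, d i := by
  simp [Finset.sum_add_distrib]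

theorem comb_single (i : Fin n) (a : Fin n → E) : comb (Pi.single i 1) a = a i := by
  simp [comb, Pi.single_apply]

theorem sum_single (i : Fin n) : ∑ j, (Pi.single i 1 : Fin n → ZMod 2) j = 1 := by
  simp

/-- the affine dependencies of a tuple -/
def Code (a : Fin n → E) : Set (Fin n → ZMod 2) := {c | ∑ i, c i = 0 ∧ comb c a = 0}

/-- the affine span of a tuple -/
def Aff (a : Fin n → E) : Set E := {x | ∃ c : Fin n → ZMod 2, ∑ i, c i = 1 ∧ comb c a = x}

/-- push forward of coefficients -/
def push (s : Fin m → Fin n) (c : Fin m → ZMod 2) : Fin n → ZMod 2 :=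
  fun j => ∑ i ∈ Finset.univ.filter (fun i => s i = j), c i

theorem sum_push (s : Fin m → Fin n) (c : Fin m → ZMod 2) : ∑ j, push s c j = ∑ i, c i := by
  unfold push
  exact Finset.sum_fiberwise _ _ _

theorem comb_push (s : Fin m → Fin n) (c : Fin m → ZMod 2) (a : Fin n → E) :
    comb (push s c) a = comb c (a ∘ s) := by
  unfold push comb
  rw [← Finset.sum_fiberwise (s := Finset.univ) (g := s) (f := fun i => c i • (a ∘ s) i)]
  refine Finset.sum_congr rfl fun j _ => ?_
  rw [Finset.sum_smul]
  refine Finset.sum_congr rfl fun i hi => ?_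
  rw [Finset.mem_filter] at hi
  rw [Function.comp_apply, hi.2]

theorem mem_code_comp {s : Fin m → Fin n} {c : Fin m → ZMod 2} {a : Fin n → E} :
    c ∈ Code (a ∘ s) ↔ push s c ∈ Code a := by
  unfold Code
  rw [Set.mem_ofPred_eq, Set.mem_ofPred_eq, sum_push, comb_push]

theorem code_comp {E' : Type*} [AddCommGroup E'] [Module (ZMod 2) E'] {a : Fin n → E}
    {b : Fin n → E'} (h : Code a = Code b) (s : Fin m → Fin n) :
    Code (a ∘ s) = Code (b ∘ s) := by
  ext c
  rw [mem_code_comp, mem_code_comp, h]

theorem pair_mem_code {a : Fin n → E} {i j : Fin n} :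
    (Pi.single i 1 + Pi.single j 1 : Fin n → ZMod 2) ∈ Code a ↔ a i = a j := by
  unfold Code
  rw [Set.mem_ofPred_eq, sum_add, sum_single, sum_single, comb_add, comb_single, comb_single,
    add_zero_iff (x := a i)]
  exact ⟨fun h => h.2, fun h => ⟨by decide, h⟩⟩

theorem eq_iff_of_code {E' : Type*} [AddCommGroup E'] [Module (ZMod 2) E'] {a : Fin n → E}
    {b : Fin n → E'} (h : Code a = Code b) (i j : Fin n) : a i = a j ↔ b i = b j := by
  rw [← pair_mem_code, ← pair_mem_code, h]

theorem injective_iff_of_code {E' : Type*} [AddCommGroup E'] [Module (ZMod 2) E']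
    {a : Fin n → E} {b : Fin n → E'} (h : Code a = Code b) :
    Function.Injective a ↔ Function.Injective b := by
  unfold Function.Injective
  simp only [eq_iff_of_code h]

theorem comb_snoc (c : Fin (n + 1) → ZMod 2) (a : Fin n → E) (x : E) :
    comb c (Fin.snoc a x : Fin (n + 1) → E) =
      comb (fun i => c (Fin.castSucc i)) a + c (Fin.last n) • x := by
  unfold comb
  rw [Fin.sum_univ_castSucc]
  simp

theorem zmod_cases (z : ZMod 2) : z = 0 ∨ z = 1 := by
  revert z
  decide

theorem zmod_add_zero {z w : ZMod 2} : z + w = 0 ↔ z = w := by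
  revert z w
  decide

theorem mem_code_snoc {c : Fin (n + 1) → ZMod 2} {a : Fin n → E} {x : E} :
    c ∈ Code (Fin.snoc a x : Fin (n + 1) → E) ↔
      (c (Fin.last n) = 0 ∧ (fun i => c (Fin.castSucc i)) ∈ Code a) ∨
      (c (Fin.last n) = 1 ∧ ∑ i, c (Fin.castSucc i) = 1 ∧
        comb (fun i => c (Fin.castSucc i)) a = x) := by
  unfold Code
  rw [Set.mem_ofPred_eq, Set.mem_ofPred_eq, comb_snoc, Fin.sum_univ_castSucc]
  rcases zmod_cases (c (Fin.last n)) with h | h
  · rw [h]
    simp
  · rw [h, one_smul, add_zero_iff (y := x), zmod_add_zero]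
    simp

theorem comb_eq_iff {a : Fin n → E} {c d : Fin n → ZMod 2} (h : ∑ i, c i = ∑ i, d i) :
    comb c a = comb d a ↔ c + d ∈ Code a := by
  unfold Code
  rw [Set.mem_ofPred_eq, sum_add, comb_add, add_zero_iff (x := comb c a), h]
  exact ⟨fun h => ⟨dbl _, h⟩, fun h => h.2⟩

theorem aff_finite (a : Fin n → E) : (Aff a).Finite := by
  have : Aff a ⊆ Set.range (fun c : Fin n → ZMod 2 => comb c a) := by
    rintro x ⟨c, _, h⟩
    exact ⟨c, h⟩
  exact (Set.finite_range _).subset this

/-- two points outside the affine span give the same code -/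
theorem code_snoc_of_notMem {E' : Type*} [AddCommGroup E'] [Module (ZMod 2) E']
    {a : Fin n → E} {b : Fin n → E'} (h : Code a = Code b) {x : E} {y : E'}
    (hx : x ∉ Aff a) (hy : y ∉ Aff b) :
    Code (Fin.snoc a x : Fin (n + 1) → E) = Code (Fin.snoc b y : Fin (n + 1) → E') := by
  ext c
  rw [mem_code_snoc, mem_code_snoc, h]
  refine or_congr_right (and_congr_right fun _ => and_congr_right fun h1 => ?_)
  exact ⟨fun h2 => absurd ⟨_, h1, h2⟩ hx, fun h2 => absurd ⟨_, h1, h2⟩ hy⟩

theorem code_snoc_of_mem {E' : Type*} [AddCommGroup E'] [Module (ZMod 2) E']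
    {a : Fin n → E} {b : Fin n → E'} (h : Code a = Code b) {d : Fin n → ZMod 2}
    (hd : ∑ i, d i = 1) :
    Code (Fin.snoc a (comb d a) : Fin (n + 1) → E) =
      Code (Fin.snoc b (comb d b) : Fin (n + 1) → E') := by
  ext c
  rw [mem_code_snoc, mem_code_snoc, h]
  refine or_congr_right (and_congr_right fun _ => and_congr_right fun h1 => ?_)
  rw [comb_eq_iff (by rw [h1, hd]), comb_eq_iff (by rw [h1, hd]), h]

theorem code_forth {E' : Type*} [AddCommGroup E'] [Module (ZMod 2) E'] [Infinite E']
    {a : Fin n → E} {b : Fin n → E'} (h : Code a = Code b) (x : E) :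
    ∃ y : E', Code (Fin.snoc a x : Fin (n + 1) → E) =
      Code (Fin.snoc b y : Fin (n + 1) → E') := by
  by_cases hx : x ∈ Aff a
  · obtain ⟨d, hd, rfl⟩ := hx
    exact ⟨comb d b, code_snoc_of_mem h hd⟩
  · obtain ⟨y, hy⟩ := (aff_finite b).exists_notMem
    exact ⟨y, code_snoc_of_notMem h hx hy⟩

theorem exists_same_code (E' : Type*) [AddCommGroup E'] [Module (ZMod 2) E'] [Infinite E']
    (a : Fin n → E) : ∃ b : Fin n → E', Code a = Code b := by
  induction n with
  | zero =>
    refine ⟨fun i => i.elim0, ?_⟩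
    ext c
    simp [Code, comb]
  | succ n ih =>
    obtain ⟨b, hb⟩ := ih (Fin.init a)
    obtain ⟨y, hy⟩ := code_forth hb (a (Fin.last n))
    rw [Fin.snoc_init_self] at hy
    exact ⟨_, hy⟩

/-- the codes of injective tuples -/
def Codes (E : Type*) [AddCommGroup E] [Module (ZMod 2) E] (n : ℕ) :
    Set (Set (Fin n → ZMod 2)) :=
  {C | ∃ a : Fin n → E, Function.Injective a ∧ Code a = C}

theorem codes_subset (E' : Type*) [AddCommGroup E'] [Module (ZMod 2) E'] [Infinite E'] :
    Codes E n ⊆ Codes E' n := by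
  rintro C ⟨a, ha, rfl⟩
  obtain ⟨b, hb⟩ := exists_same_code E' a
  exact ⟨b, (injective_iff_of_code hb).1 ha, hb.symm⟩

theorem codes_eq (E' : Type*) [AddCommGroup E'] [Module (ZMod 2) E'] [Infinite E]
    [Infinite E'] : Codes E n = Codes E' n :=
  Set.Subset.antisymm (codes_subset E') (codes_subset E)

/-- the affine group: all permutations preserving the ternary sum -/
def affGroup (E : Type*) [AddCommGroup E] : Subgroup (Equiv.Perm E) where
  carrier := {g | ∀ a b c : E, g (a + b + c) = g a + g b + g c}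
  mul_mem' := by
    intro g h hg hh a b c
    simp only [Equiv.Perm.mul_apply]
    rw [hh, hg]
  one_mem' := by
    intro a b c
    rfl
  inv_mem' := by
    intro g hg a b c
    apply g.injective
    rw [hg]
    simp

theorem aff_comb {g : E → E} (hg : ∀ a b c : E, g (a + b + c) = g a + g b + g c)
    (c : Fin n → ZMod 2) (a : Fin n → E) :
    g (comb c a) = comb c (fun i => g (a i)) + (∑ i, c i + 1) • g 0 := by
  induction n with
  | zero => simp [comb]
  | succ n ih =>
    have h1 : comb c a = comb (fun i => c (Fin.castSucc i)) (Fin.init a) +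
        c (Fin.last n) • a (Fin.last n) := by
      conv_lhs => rw [← Fin.snoc_init_self a]
      rw [comb_snoc]
    have h2 : comb c (fun i => g (a i)) = comb (fun i => c (Fin.castSucc i))
        (fun i => g (Fin.init a i)) + c (Fin.last n) • g (a (Fin.last n)) := by
      unfold comb
      rw [Fin.sum_univ_castSucc]
      rfl
    rw [h1, h2, Fin.sum_univ_castSucc]
    have ih' := ih (fun i => c (Fin.castSucc i)) (Fin.init a)
    rcases zmod_cases (c (Fin.last n)) with h | h
    · rw [h, zero_smul, zero_smul, add_zero, add_zero, ih', add_zero]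
    · rw [h, one_smul, one_smul]
      have h3 : comb (fun i => c (Fin.castSucc i)) (Fin.init a) + a (Fin.last n) =
          comb (fun i => c (Fin.castSucc i)) (Fin.init a) + 0 + a (Fin.last n) := by
        rw [add_zero]
      rw [h3, hg, ih']
      have h4 : (∑ i : Fin n, c (Fin.castSucc i) + 1 + 1 : ZMod 2) =
          ∑ i : Fin n, c (Fin.castSucc i) := by
        rw [add_assoc, show (1 + 1 : ZMod 2) = 0 by decide, add_zero]
      rw [h4, add_smul, one_smul]
      have h5 := dbl (g 0)
      calc comb (fun i => c (Fin.castSucc i)) (fun i => g (Fin.init a i)) +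
            ((∑ i : Fin n, c (Fin.castSucc i)) • g 0 + g 0) + g 0 + g (a (Fin.last n))
          = comb (fun i => c (Fin.castSucc i)) (fun i => g (Fin.init a i)) +
            g (a (Fin.last n)) + (∑ i : Fin n, c (Fin.castSucc i)) • g 0 + (g 0 + g 0) := by
            abel
        _ = _ := by rw [h5, add_zero]

theorem aff_comb_one {g : E → E} (hg : ∀ a b c : E, g (a + b + c) = g a + g b + g c)
    {c : Fin n → ZMod 2} (hc : ∑ i, c i = 1) (a : Fin n → E) :
    g (comb c a) = comb c (fun i => g (a i)) := by
  rw [aff_comb hg, hc, show (1 + 1 : ZMod 2) = 0 by decide, zero_smul, add_zero]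

theorem code_of_aff {g : Equiv.Perm E} (hg : g ∈ affGroup E) (a : Fin n → E) :
    Code (fun i => g (a i)) = Code a := by
  ext c
  unfold Code
  rw [Set.mem_ofPred_eq, Set.mem_ofPred_eq]
  refine and_congr_right fun hc => ?_
  have := aff_comb (g := g) hg c a
  rw [hc, zero_add, one_smul] at this
  constructor
  · intro h
    rw [h, zero_add] at this
    exact g.injective this
  · intro h
    rw [h] at this
    have h2 := congrArg (· + g 0) this
    simp only [add_assoc, dbl, add_zero] at h2
    exact h2.symm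

theorem code_of_sameOrbit {G : Subgroup (Equiv.Perm E)} (hG : G ≤ affGroup E)
    {a b : Fin n → E} (h : SameOrbit G a b) : Code a = Code b := by
  obtain ⟨g, hg, h⟩ := h
  have : b = fun i => g (a i) := funext fun i => (h i).symm
  rw [this, code_of_aff (hG hg)]

end General

section Homogeneous

variable {V : Type*} [AddCommGroup V] [Module (ZMod 2) V] [Infinite V] [Countable V]
variable {n m : ℕ}

theorem aff_homogeneous {a b : Fin n → V} (h : Code a = Code b) :
    SameOrbit (affGroup V) a b := by
  obtain ⟨g, hg1, hg2⟩ := back_and_forth (fun n (a b : Fin n → V) => Code a = Code b)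
    (fun a b s h => code_comp h s) (fun a b h i j => eq_iff_of_code h i j)
    (fun a b h x => code_forth h x) (fun a b h => h.symm) a b h
  refine ⟨g, ?_, hg1⟩
  intro a b c
  have h1 : (fun _ => 1 : Fin 4 → ZMod 2) ∈ Code ![a, b, c, a + b + c] := by
    refine ⟨by decide, ?_⟩
    simp only [comb, Fin.sum_univ_four]
    simp [dbl]
  have h2 := hg2 4 ![a, b, c, a + b + c]
  rw [h2] at h1
  have h3 := h1.2
  simp only [comb, Fin.sum_univ_four, one_smul] at h3
  simp at h3
  exact (eq_of_add_zero h3).symm

theorem aff_sameOrbit_iff {a b : Fin n → V} :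
    SameOrbit (affGroup V) a b ↔ Code a = Code b :=
  ⟨code_of_sameOrbit le_rfl, aff_homogeneous⟩

theorem aff_oligomorphic : IsOligomorphic (affGroup V) := by
  intro n _
  exact finite_of_invariant (κ := Set (Fin n → ZMod 2)) Code (fun a b h => aff_homogeneous h)

theorem aff_F_eq : F (affGroup V) n = Nat.card (Codes V n) := by
  unfold F
  refine Nat.card_congr (Equiv.ofBijective
    (fun q => ⟨Code q.out.1, q.out.1, q.out.2, rfl⟩) ⟨?_, ?_⟩)
  · intro q q' h
    have h1 : Code q.out.1 = Code q'.out.1 := congrArg Subtype.val h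
    have h2 := (mk_eq_iff (a := q.out) (b := q'.out)).2 (aff_homogeneous h1)
    rwa [Quotient.out_eq, Quotient.out_eq] at h2
  · rintro ⟨C, a, ha, rfl⟩
    refine ⟨Quotient.mk _ ⟨a, ha⟩, Subtype.ext ?_⟩
    have h1 : Quotient.mk (distinctTupleOrbits (affGroup V) n)
        (Quotient.mk (distinctTupleOrbits (affGroup V) n) ⟨a, ha⟩).out =
        Quotient.mk (distinctTupleOrbits (affGroup V) n) ⟨a, ha⟩ := Quotient.out_eq _
    exact code_of_sameOrbit le_rfl (mk_eq_iff.1 h1)

end Homogeneous

end Pool.Agent.Lib.MP_3f2714_al
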