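import Mathlib
import Pool.Agent.Lib.MP_3f2714_al.Basic
import Pool.Agent.Lib.MP_3f2714_al.BackForth

namespace Pool.Agent.Lib.MP_3f2714_al

theorem exists_enum : ∃ φ : ℕ → Finset (Finset ℕ),
    ∀ (A : Finset (Finset ℕ)) (m : ℕ), ∃ x, m < x ∧ φ x = A := by
  obtain ⟨f, hf⟩ := exists_surjective_nat (Finset (Finset ℕ) × ℕ)
  refine ⟨fun x => (f x).1, fun A m => ?_⟩
  have hinf : {x | (f x).1 = A}.Infinite := by
    apply Set.Infinite.of_image (fun x => (f x).2)
    have : (fun x => (f x).2) '' {x | (f x).1 = A} = Set.univ := by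
      ext j
      simp only [Set.mem_image, Set.mem_ofPred_eq, Set.mem_univ, iff_true]
      obtain ⟨x, hx⟩ := hf (A, j)
      exact ⟨x, by rw [hx], by rw [hx]⟩
    rw [this]
    exact Set.infinite_univ
  obtain ⟨x, hx, hm⟩ := hinf.exists_gt m
  exact ⟨x, hm, hx⟩

noncomputable def phi : ℕ → Finset (Finset ℕ) := exists_enum.choose

theorem phi_spec (A : Finset (Finset ℕ)) (m : ℕ) : ∃ x, m < x ∧ phi x = A :=
  exists_enum.choose_spec A m

/-- the edges of the random `k`-uniform hypergraph on `ℕ` -/
def Edge (k : ℕ) (T : Finset ℕ) : Prop :=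
  T.card = k ∧ ∃ x ∈ T, (∀ y ∈ T, y ≤ x) ∧ T.erase x ∈ phi x

theorem edge_insert {k : ℕ} {x : ℕ} {S : Finset ℕ} (h : ∀ y ∈ S, y < x) :
    Edge k (insert x S) ↔ (insert x S).card = k ∧ S ∈ phi x := by
  have hx : x ∉ S := fun hx => lt_irrefl _ (h x hx)
  unfold Edge
  refine and_congr_right fun _ => ?_
  constructor
  · rintro ⟨z, hz, h1, h2⟩
    have hzx : z = x := by
      rcases Finset.mem_insert.1 hz with h3 | h3
      · exact h3
      · have := h1 x (Finset.mem_insert_self _ _)
        have := h z h3
        omega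
    subst hzx
    rwa [Finset.erase_insert hx] at h2
  · intro h2
    refine ⟨x, Finset.mem_insert_self _ _, ?_, ?_⟩
    · intro y hy
      rcases Finset.mem_insert.1 hy with h3 | h3
      · exact h3.le
      · exact (h y h3).le
    · rwa [Finset.erase_insert hx]

/-- extension property -/
theorem exists_ext (k : ℕ) (A : Finset ℕ) (B : Finset (Finset ℕ)) :
    ∃ x, x ∉ A ∧ ∀ S ⊆ A, (Edge k (insert x S) ↔ (insert x S).card = k ∧ S ∈ B) := by
  obtain ⟨x, hx, hB⟩ := phi_spec B (A.sup id)
  have hlt : ∀ y ∈ A, y < x := fun y hy => lt_of_le_of_lt (Finset.le_sup (f := id) hy) hx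
  refine ⟨x, fun h => lt_irrefl _ (hlt x h), fun S hS => ?_⟩
  rw [edge_insert (fun y hy => hlt y (hS hy)), hB]

/-- the automorphism group of the random `k`-uniform hypergraph -/
def hyperGroup (k : ℕ) : Subgroup (Equiv.Perm ℕ) where
  carrier := {g | ∀ T : Finset ℕ, Edge k (T.image g) ↔ Edge k T}
  mul_mem' := by
    intro g h hg hh T
    rw [show T.image (g * h : Equiv.Perm ℕ) = (T.image h).image g by
      rw [Finset.image_image]; rfl]
    rw [hg, hh]
  one_mem' := by
    intro T
    simp
  inv_mem' := by
    intro g hg T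
    rw [← hg (T.image (g⁻¹ : Equiv.Perm ℕ)), Finset.image_image]
    have : (g : ℕ → ℕ) ∘ ((g⁻¹ : Equiv.Perm ℕ) : ℕ → ℕ) = id := by
      funext x
      simp
    rw [this, Finset.image_id]

/-- similarity of tuples -/
def HJ (k : ℕ) (n : ℕ) (a b : Fin n → ℕ) : Prop :=
  (∀ i j, a i = a j ↔ b i = b j) ∧
    ∀ S : Finset (Fin n), Edge k (S.image a) ↔ Edge k (S.image b)

theorem HJ.comp {k n m : ℕ} (a b : Fin n → ℕ) (s : Fin m → Fin n) (h : HJ k n a b) :
    HJ k m (a ∘ s) (b ∘ s) := by
  refine ⟨fun i j => h.1 _ _, fun S => ?_⟩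
  rw [← Finset.image_image, ← Finset.image_image]
  exact h.2 _

theorem HJ.symm {k n : ℕ} (a b : Fin n → ℕ) (h : HJ k n a b) : HJ k n b a :=
  ⟨fun i j => (h.1 i j).symm, fun S => (h.2 S).symm⟩

theorem image_eq_of_image_eq {k n : ℕ} {a b : Fin n → ℕ} (h : HJ k n a b)
    {S T : Finset (Fin n)} (hST : S.image a = T.image a) : S.image b = T.image b := by
  have key : ∀ {S T : Finset (Fin n)}, S.image a ⊆ T.image a → S.image b ⊆ T.image b := by
    intro S T hST x hx
    obtain ⟨i, hi, rfl⟩ := Finset.mem_image.1 hx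
    obtain ⟨j, hj, hij⟩ := Finset.mem_image.1 (hST (Finset.mem_image_of_mem a hi))
    exact Finset.mem_image.2 ⟨j, hj, (h.1 j i).1 hij⟩
  exact Finset.Subset.antisymm (key hST.subset) (key hST.symm.subset)

theorem card_image_eq {k n : ℕ} {a b : Fin n → ℕ} (h : HJ k n a b) (S : Finset (Fin n)) :
    (S.image a).card = (S.image b).card := by
  have h1 : ∀ {a b : Fin n → ℕ}, HJ k n a b → (S.image a).card ≤ (S.image b).card := by
    intro a b h
    rcases isEmpty_or_nonempty (Fin n) with he | he
    · simp [Finset.eq_empty_of_isEmpty S]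
    have hch : ∀ x ∈ S.image a, ∃ i ∈ S, a i = x := fun x hx => Finset.mem_image.1 hx
    choose! f hf1 hf2 using hch
    refine Finset.card_le_card_of_injOn (fun x => b (f x))
      (fun x hx => Finset.mem_coe.2 (Finset.mem_image_of_mem b (hf1 x hx))) ?_
    intro x hx y hy hxy
    have := (h.1 (f x) (f y)).2 hxy
    rwa [hf2 x hx, hf2 y hy] at this
  exact le_antisymm (h1 h) (h1 (HJ.symm _ _ h))

theorem image_snoc_castSucc {n : ℕ} (a : Fin n → ℕ) (x : ℕ) (S : Finset (Fin n)) :
    (S.image Fin.castSucc).image (Fin.snoc a x : Fin (n + 1) → ℕ) = S.image a := by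
  rw [Finset.image_image]
  congr 1
  funext i
  simp

theorem fin_set_cases {n : ℕ} (S : Finset (Fin (n + 1))) :
    ∃ T : Finset (Fin n), S = T.image Fin.castSucc ∨
      S = insert (Fin.last n) (T.image Fin.castSucc) := by
  refine ⟨Finset.univ.filter (fun i => Fin.castSucc i ∈ S), ?_⟩
  by_cases h : Fin.last n ∈ S
  · right
    ext i
    refine Fin.lastCases ?_ (fun j => ?_) i
    · simp [h]
    · simp [Fin.castSucc_ne_last]
  · left
    ext i
    refine Fin.lastCases ?_ (fun j => ?_) i
    · simp [h, Fin.castSucc_ne_last]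
    · simp

theorem HJ.forth {k n : ℕ} (a b : Fin n → ℕ) (h : HJ k n a b) (x : ℕ) :
    ∃ y : ℕ, HJ k (n + 1) (Fin.snoc a x : Fin (n + 1) → ℕ) (Fin.snoc b y : Fin (n + 1) → ℕ) := by
  classical
  by_cases hx : ∃ i, a i = x
  · obtain ⟨i, rfl⟩ := hx
    refine ⟨b i, ?_⟩
    have := HJ.comp a b (Fin.snoc id i : Fin (n + 1) → Fin n) h
    have e : ∀ a : Fin n → ℕ, a ∘ (Fin.snoc id i : Fin (n + 1) → Fin n) =
        (Fin.snoc a (a i) : Fin (n + 1) → ℕ) := by
      intro a
      funext j
      refine Fin.lastCases ?_ (fun j => ?_) j <;> simp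
    rwa [e a, e b] at this
  · push Not at hx
    let B : Finset (Finset ℕ) :=
      (Finset.univ.filter (fun S : Finset (Fin n) => Edge k (insert x (S.image a)))).image
        (fun S => S.image b)
    obtain ⟨y, hy, hyB⟩ := exists_ext k (Finset.univ.image b) B
    have hyb : ∀ i, b i ≠ y := fun i hi =>
      hy (hi ▸ Finset.mem_image_of_mem b (Finset.mem_univ i))
    have hB : ∀ S : Finset (Fin n), S.image b ∈ B ↔ Edge k (insert x (S.image a)) := by
      intro S
      simp only [B, Finset.mem_image, Finset.mem_filter, Finset.mem_univ, true_and]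
      constructor
      · rintro ⟨T, hT, hTS⟩
        rwa [image_eq_of_image_eq (HJ.symm _ _ h) hTS] at hT
      · intro hS
        exact ⟨S, hS, rfl⟩
    refine ⟨y, ?_, ?_⟩
    · intro i j
      refine Fin.lastCases ?_ (fun i => ?_) i
      · refine Fin.lastCases ?_ (fun j => ?_) j
        · simp
        · simp only [Fin.snoc_last, Fin.snoc_castSucc]
          exact ⟨fun h => absurd h.symm (hx j), fun h => absurd h.symm (hyb j)⟩
      · refine Fin.lastCases ?_ (fun j => ?_) j
        · simp only [Fin.snoc_last, Fin.snoc_castSucc]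
          exact ⟨fun h => absurd h (hx i), fun h => absurd h (hyb i)⟩
        · simp only [Fin.snoc_castSucc]
          exact h.1 i j
    · intro S
      obtain ⟨T, rfl | rfl⟩ := fin_set_cases S
      · rw [image_snoc_castSucc, image_snoc_castSucc]
        exact h.2 T
      · rw [Finset.image_insert, Finset.image_insert, image_snoc_castSucc,
          image_snoc_castSucc]
        simp only [Fin.snoc_last]
        rw [hyB (T.image b) (Finset.image_subset_image (Finset.subset_univ _)), hB]
        constructor
        · intro hE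
          refine ⟨?_, hE⟩
          have h1 : x ∉ T.image a := by
            intro hh
            obtain ⟨i, _, hi⟩ := Finset.mem_image.1 hh
            exact hx i hi
          have h2 : y ∉ T.image b := by
            intro hh
            obtain ⟨i, _, hi⟩ := Finset.mem_image.1 hh
            exact hyb i hi
          have h3 := hE.1
          rw [Finset.card_insert_of_notMem h1, card_image_eq h T] at h3
          rw [Finset.card_insert_of_notMem h2, h3]
        · exact fun hE => hE.2

theorem hyper_homogeneous {k n : ℕ} {a b : Fin n → ℕ} (h : HJ k n a b) :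
    SameOrbit (hyperGroup k) a b := by
  obtain ⟨g, hg1, hg2⟩ := back_and_forth (HJ k) (fun a b s h => HJ.comp a b s h)
    (fun a b h => h.1) (fun a b h x => HJ.forth a b h x) (fun a b h => HJ.symm a b h) a b h
  refine ⟨g, ?_, hg1⟩
  intro T
  have := (hg2 T.card (fun i => T.orderIsoOfFin rfl i)).2 Finset.univ
  have e1 : Finset.univ.image (fun i => ((T.orderIsoOfFin rfl i : T) : ℕ)) = T := by
    ext x
    simp only [Finset.mem_image, Finset.mem_univ, true_and]
    constructor
    · rintro ⟨i, rfl⟩
      exact (T.orderIsoOfFin rfl i).2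
    · intro hx
      exact ⟨(T.orderIsoOfFin rfl).symm ⟨x, hx⟩, by simp⟩
  have e2 : Finset.univ.image (fun i => g ((T.orderIsoOfFin rfl i : T) : ℕ)) = T.image g := by
    conv_rhs => rw [← e1]
    rw [Finset.image_image]
    rfl
  rw [e1, e2] at this
  exact this.symm

theorem edge_false {k n : ℕ} (hn : n < k) (a : Fin n → ℕ) (S : Finset (Fin n)) :
    ¬ Edge k (S.image a) := by
  intro h
  have h1 := h.1
  have h2 : (S.image a).card ≤ S.card := Finset.card_image_le
  have h3 : S.card ≤ n := by simpa using S.card_le_univ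
  omega

theorem hyper_transitive {k n : ℕ} (hn : n < k) {a b : Fin n → ℕ} (ha : Function.Injective a)
    (hb : Function.Injective b) : SameOrbit (hyperGroup k) a b := by
  apply hyper_homogeneous
  refine ⟨fun i j => by rw [ha.eq_iff, hb.eq_iff], fun S => ?_⟩
  exact ⟨fun h => absurd h (edge_false hn a S), fun h => absurd h (edge_false hn b S)⟩

theorem hyper_oligomorphic (k : ℕ) : IsOligomorphic (hyperGroup k) := by
  classical
  intro n _
  refine finite_of_invariant (κ := (Fin n → Fin n → Prop) × (Finset (Fin n) → Prop))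
    (fun a => (fun i j => a i = a j, fun S => Edge k (S.image a))) ?_
  intro a b h
  apply hyper_homogeneous
  simp only [Prod.mk.injEq] at h
  refine ⟨fun i j => ?_, fun S => ?_⟩
  · exact iff_of_eq (congrFun (congrFun h.1 i) j)
  · exact iff_of_eq (congrFun h.2 S)

theorem hyper_F_eq_one {k n : ℕ} (hn : n < k) : F (hyperGroup k) n = 1 := by
  apply le_antisymm
  · have := F_le_card (G := hyperGroup k) (n := n) (κ := Unit) (fun _ => ())
      (fun a b ha hb _ => hyper_transitive hn ha hb)
    simpa using this
  · rcases Nat.eq_zero_or_pos n with h0 | h0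
    · subst h0
      have : Nonempty (Quotient (distinctTupleOrbits (hyperGroup k) 0)) := nonempty_distinct
      have hf : Finite (Quotient (distinctTupleOrbits (hyperGroup k) 0)) := by
        have : Subsingleton {a : Fin 0 → ℕ // Function.Injective a} :=
          ⟨fun a b => Subtype.ext (funext fun i => i.elim0)⟩
        infer_instance
      exact Nat.card_pos
    · exact Nat.pos_of_ne_zero (F_pos (hyper_oligomorphic k n h0))

theorem hyper_F_ge_two (k : ℕ) : 2 ≤ F (hyperGroup (k + 1)) (k + 1) := by
  classical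
  obtain ⟨x, hx, hx'⟩ := exists_ext (k + 1) (Finset.range k) {Finset.range k}
  obtain ⟨y, hy, hy'⟩ := exists_ext (k + 1) (Finset.range k) ∅
  let t : ℕ → Fin (k + 1) → ℕ := fun z => Fin.snoc (fun i : Fin k => (i : ℕ)) z
  have himg : ∀ z, Finset.univ.image (t z) = insert z (Finset.range k) := by
    intro z
    ext w
    simp only [Finset.mem_image, Finset.mem_univ, true_and, Finset.mem_insert,
      Finset.mem_range, t]
    constructor
    · rintro ⟨i, rfl⟩
      refine Fin.lastCases ?_ (fun j => ?_) i
      · left; simp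
      · right; simp
    · rintro (rfl | hw)
      · exact ⟨Fin.last k, by simp⟩
      · exact ⟨Fin.castSucc ⟨w, hw⟩, Fin.snoc_castSucc _ _ _⟩
  have hinj : ∀ z, z ∉ Finset.range k → Function.Injective (t z) := by
    intro z hz i j
    refine Fin.lastCases ?_ (fun i => ?_) i
    · refine Fin.lastCases ?_ (fun j => ?_) j
      · simp
      · simp only [t, Fin.snoc_last, Fin.snoc_castSucc]
        intro h
        exact absurd (Finset.mem_range.2 (h ▸ j.2)) hz
    · refine Fin.lastCases ?_ (fun j => ?_) j
      · simp only [t, Fin.snoc_last, Fin.snoc_castSucc]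
        intro h
        exact absurd (Finset.mem_range.2 (h ▸ i.2)) hz
      · simp only [t, Fin.snoc_castSucc]
        intro h
        rw [Fin.ext h]
  have hE1 : Edge (k + 1) (Finset.univ.image (t x)) := by
    rw [himg, hx' _ (Finset.Subset.refl _)]
    refine ⟨?_, Finset.mem_singleton_self _⟩
    rw [Finset.card_insert_of_notMem hx, Finset.card_range]
  have hE2 : ¬ Edge (k + 1) (Finset.univ.image (t y)) := by
    rw [himg, hy' _ (Finset.Subset.refl _)]
    simp
  have hne : ∀ a b : Fin (k + 1) → ℕ, SameOrbit (hyperGroup (k + 1)) a b →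
      (Edge (k + 1) (Finset.univ.image a) ↔ Edge (k + 1) (Finset.univ.image b)) := by
    rintro a b ⟨g, hg, h⟩
    rw [← hg (Finset.univ.image a), Finset.image_image]
    have : (g : ℕ → ℕ) ∘ a = b := funext h
    rw [this]
  have hF : F (hyperGroup (k + 1)) (k + 1) ≠ 0 :=
    F_pos (hyper_oligomorphic (k + 1) (k + 1) (by omega))
  have := card_le_F (G := hyperGroup (k + 1)) (n := k + 1) (ι := Bool) hF
    (fun i => if i then t x else t y) (by
      intro i
      cases i
      · simpa using hinj y hy
      · simpa using hinj x hx) (by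
      intro i j hij
      have := hne _ _ hij
      cases i <;> cases j
      · rfl
      · simp [hE1, hE2] at this
      · simp [hE1, hE2] at this
      · rfl)
  simpa using this

theorem hyper_F_le (k : ℕ) : F (hyperGroup (k + 1)) (k + 2) ≤ 2 ^ (k + 2) := by
  classical
  have := F_le_card (G := hyperGroup (k + 1)) (n := k + 2) (κ := Fin (k + 2) → Prop)
    (fun a i => Edge (k + 1) ((Finset.univ.erase i).image a)) (by
      intro a b ha hb hab
      apply hyper_homogeneous
      refine ⟨fun i j => by rw [ha.eq_iff, hb.eq_iff], fun S => ?_⟩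
      by_cases hS : S.card = k + 1
      · have hc : Sᶜ.card = 1 := by
          rw [Finset.card_compl, hS]
          simp
        obtain ⟨i, hi⟩ := Finset.card_eq_one.1 hc
        have hSi : S = Finset.univ.erase i := by
          rw [← compl_compl S, hi, Finset.compl_singleton]
        rw [hSi]
        exact iff_of_eq (congrFun hab i)
      · constructor
        · intro h
          exact absurd (by rw [← h.1, Finset.card_image_of_injective _ ha]) hS
        · intro h
          exact absurd (by rw [← h.1, Finset.card_image_of_injective _ hb]) hS)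
  simpa using this

theorem primitive_of_two {Ω : Type*} [Infinite Ω] {G : Subgroup (Equiv.Perm Ω)}
    (h2 : ∀ a b : Fin 2 → Ω, Function.Injective a → Function.Injective b → SameOrbit G a b) :
    IsPrimitive G := by
  have hinj : ∀ {a b : Ω}, a ≠ b → Function.Injective ![a, b] := by
    intro a b hab i j
    fin_cases i <;> fin_cases j <;> simp [hab, hab.symm]
  have key : ∀ a b c d : Ω, a ≠ b → c ≠ d → ∃ g ∈ G, g a = c ∧ g b = d := by
    intro a b c d hab hcd
    obtain ⟨g, hg, h⟩ := h2 ![a, b] ![c, d] (hinj hab) (hinj hcd)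
    exact ⟨g, hg, h 0, h 1⟩
  refine ⟨fun a b => ?_, fun r hr => ?_⟩
  · obtain ⟨c, hc⟩ := exists_ne a
    obtain ⟨d, hd⟩ := exists_ne b
    obtain ⟨g, hg, h, _⟩ := key a c b d hc.symm hd.symm
    exact ⟨g, hg, h⟩
  · by_cases h : ∃ a b, r a b ∧ a ≠ b
    · right
      obtain ⟨a, b, hab, hne⟩ := h
      intro c d
      by_cases hcd : c = d
      · rw [hcd]
      · obtain ⟨g, hg, h1, h2⟩ := key a b c d hne hcd
        rw [← h1, ← h2]
        exact hr g hg a b hab
    · left
      push Not at h
      exact h

theorem hyper_primitive {k : ℕ} (hk : 2 < k) : IsPrimitive (hyperGroup k) :=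
  primitive_of_two (fun _ _ ha hb => hyper_transitive hk ha hb)

end Pool.Agent.Lib.MP_3f2714_al
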