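import Mathlib
import Pool.Agent.Lib.MP_3f2714_al.Affine
import Pool.Agent.Lib.MP_3f2714_al.Hyper

namespace Pool.Agent.Lib.MP_3f2714_al

set_option linter.unusedSectionVars false

section General

variable {E : Type*} [AddCommGroup E] [Module (ZMod 2) E] {n m : ℕ}

theorem zero_mem_code (a : Fin n → E) : (0 : Fin n → ZMod 2) ∈ Code a := by
  refine ⟨by simp, by simp [comb]⟩

theorem pair_notMem {a : Fin n → E} (ha : Function.Injective a) {i j : Fin n} (hij : i ≠ j) :
    (Pi.single i 1 + Pi.single j 1 : Fin n → ZMod 2) ∉ Code a := by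
  rw [pair_mem_code]
  exact fun h => hij (ha h)

theorem code_add {a : Fin n → E} {c d : Fin n → ZMod 2} (hc : c ∈ Code a) (hd : d ∈ Code a) :
    c + d ∈ Code a := by
  refine ⟨?_, ?_⟩
  · rw [sum_add, hc.1, hd.1, add_zero]
  · rw [comb_add, hc.2, hd.2, add_zero]

theorem cases_two : ∀ c : Fin 2 → ZMod 2, ∑ i, c i = 0 → c = 0 ∨
    ∃ i j, i ≠ j ∧ c = Pi.single i 1 + Pi.single j 1 := by decide

theorem cases_three : ∀ c : Fin 3 → ZMod 2, ∑ i, c i = 0 → c = 0 ∨
    ∃ i j, i ≠ j ∧ c = Pi.single i 1 + Pi.single j 1 := by decide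

theorem cases_four : ∀ c : Fin 4 → ZMod 2, ∑ i, c i = 0 → c = 0 ∨ (c = fun _ => 1) ∨
    ∃ i j, i ≠ j ∧ c = Pi.single i 1 + Pi.single j 1 := by decide

theorem cases_five : ∀ c : Fin 5 → ZMod 2, ∑ i, c i = 0 → c = 0 ∨
    (∃ i, c = (fun _ => 1) + Pi.single i 1) ∨
    ∃ i j, i ≠ j ∧ c = Pi.single i 1 + Pi.single j 1 := by decide

theorem code_two {a : Fin 2 → E} (ha : Function.Injective a) : Code a = {0} := by
  ext c
  constructor
  · intro hc
    rcases cases_two c hc.1 with h | ⟨i, j, hij, h⟩
    · exact h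
    · rw [h] at hc
      exact absurd hc (pair_notMem ha hij)
  · rintro rfl
    exact zero_mem_code a

theorem code_three {a : Fin 3 → E} (ha : Function.Injective a) : Code a = {0} := by
  ext c
  constructor
  · intro hc
    rcases cases_three c hc.1 with h | ⟨i, j, hij, h⟩
    · exact h
    · rw [h] at hc
      exact absurd hc (pair_notMem ha hij)
  · rintro rfl
    exact zero_mem_code a

theorem code_four {a : Fin 4 → E} (ha : Function.Injective a) (c : Fin 4 → ZMod 2) :
    c ∈ Code a ↔ c = 0 ∨ (c = (fun _ => 1) ∧ (fun _ => 1) ∈ Code a) := by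
  constructor
  · intro hc
    rcases cases_four c hc.1 with h | h | ⟨i, j, hij, h⟩
    · exact Or.inl h
    · exact Or.inr ⟨h, h ▸ hc⟩
    · rw [h] at hc
      exact absurd hc (pair_notMem ha hij)
  · rintro (rfl | ⟨h, h'⟩)
    · exact zero_mem_code a
    · rw [h]; exact h'

theorem code_five {a : Fin 5 → E} (ha : Function.Injective a) (c : Fin 5 → ZMod 2) :
    c ∈ Code a ↔ c = 0 ∨ ∃ i, c = (fun _ => 1) + Pi.single i 1 ∧
      (fun _ => 1) + Pi.single i 1 ∈ Code a := by
  constructor
  · intro hc
    rcases cases_five c hc.1 with h | ⟨i, h⟩ | ⟨i, j, hij, h⟩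
    · exact Or.inl h
    · exact Or.inr ⟨i, h, h ▸ hc⟩
    · rw [h] at hc
      exact absurd hc (pair_notMem ha hij)
  · rintro (rfl | ⟨i, h, h'⟩)
    · exact zero_mem_code a
    · rw [h]; exact h'

theorem five_unique {a : Fin 5 → E} (ha : Function.Injective a) {i j : Fin 5}
    (hi : (fun _ => 1) + Pi.single i 1 ∈ Code a) (hj : (fun _ => 1) + Pi.single j 1 ∈ Code a) :
    i = j := by
  by_contra hij
  have := code_add hi hj
  have h2 : ∀ i j : Fin 5, ((fun _ => 1) + Pi.single i 1 : Fin 5 → ZMod 2) +
      ((fun _ => 1) + Pi.single j 1) = Pi.single i 1 + Pi.single j 1 := by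
    decide
  rw [h2] at this
  exact pair_notMem ha hij this

end General

section Countable

variable {V : Type*} [AddCommGroup V] [Module (ZMod 2) V] [Infinite V] [Countable V]
variable {n m : ℕ}

theorem aff_primitive : IsPrimitive (affGroup V) :=
  primitive_of_two (fun a b ha hb => aff_homogeneous (by rw [code_two ha, code_two hb]))

theorem aff_F_ne_zero (hn : 1 ≤ n) : F (affGroup V) n ≠ 0 := F_pos (aff_oligomorphic n hn)

theorem aff_F_three : F (affGroup V) 3 = 1 := by
  apply le_antisymm
  · have := F_le_card (G := affGroup V) (n := 3) (κ := Unit) (fun _ => ())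
      (fun a b ha hb _ => aff_homogeneous (by rw [code_three ha, code_three hb]))
    simpa using this
  · exact Nat.pos_of_ne_zero (aff_F_ne_zero (by norm_num))

theorem aff_F_four_le : F (affGroup V) 4 ≤ 2 := by
  classical
  have := F_le_card (G := affGroup V) (n := 4) (κ := Prop)
      (fun a => (fun _ => 1) ∈ Code a) (fun a b ha hb h => aff_homogeneous (by
        ext c
        rw [code_four ha, code_four hb, h]))
  simpa using this

theorem aff_F_five : F (affGroup V) 5 ≤ 6 := by
  classical
  have := F_le_card (G := affGroup V) (n := 5) (κ := Option (Fin 5))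
      (fun a => if h : ∃ i, (fun _ => 1) + Pi.single i 1 ∈ Code a then some h.choose else none)
      (fun a b ha hb h => aff_homogeneous (by
        ext c
        rw [code_five ha, code_five hb]
        refine or_congr_right (exists_congr fun i => and_congr_right fun _ => ?_)
        have key : ∀ (a b : Fin 5 → V), Function.Injective a → Function.Injective b →
            (if h : ∃ i, (fun _ => 1) + Pi.single i 1 ∈ Code a then some h.choose else none) =
            (if h : ∃ i, (fun _ => 1) + Pi.single i 1 ∈ Code b then some h.choose else none) →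
            (fun _ => 1) + Pi.single i 1 ∈ Code a → (fun _ => 1) + Pi.single i 1 ∈ Code b := by
          intro a b ha hb h hi
          have hex : ∃ i, (fun _ => 1) + Pi.single i 1 ∈ Code a := ⟨i, hi⟩
          rw [dif_pos hex] at h
          have h1 := five_unique ha hi hex.choose_spec
          rw [← h1] at h
          by_cases hex' : ∃ i, (fun _ => 1) + Pi.single i 1 ∈ Code b
          · rw [dif_pos hex'] at h
            have h2 := hex'.choose_spec
            rw [← Option.some_injective _ h] at h2
            exact h2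
          · rw [dif_neg hex'] at h
            exact absurd h (by simp)
        exact ⟨key a b ha hb h, key b a hb ha h.symm⟩))
  simpa using this

open Classical in
/-- the points of the affine span that are not in the tuple -/
noncomputable def Xset (a : Fin n → V) : Finset V :=
  (aff_finite a).toFinset \ Finset.univ.image a

theorem mem_Xset {a : Fin n → V} {x : V} : x ∈ Xset a ↔ x ∈ Aff a ∧ ∀ i, a i ≠ x := by
  classical
  simp [Xset]

theorem self_mem_aff (a : Fin n → V) (i : Fin n) : a i ∈ Aff a :=
  ⟨Pi.single i 1, sum_single i, comb_single i a⟩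

theorem card_Xset {a : Fin n → V} (ha : Function.Injective a) :
    (Xset a).card + n = (Aff a).ncard := by
  classical
  rw [Set.ncard_eq_toFinset_card _ (aff_finite a)]
  have h1 : Finset.univ.image a ⊆ (aff_finite a).toFinset := by
    intro x hx
    obtain ⟨i, _, rfl⟩ := Finset.mem_image.1 hx
    simpa using self_mem_aff a i
  have h2 : (Finset.univ.image a).card = n := by
    rw [Finset.card_image_of_injective _ ha]; simp
  have h3 := Finset.card_sdiff_add_card_eq_card h1
  rw [h2] at h3
  exact h3

theorem ext_bound (hF' : F (affGroup V) (n + 1) ≠ 0)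
    [Fintype (Quotient (distinctTupleOrbits (affGroup V) n))] :
    F (affGroup V) (n + 1) ≤
      ∑ q : Quotient (distinctTupleOrbits (affGroup V) n), ((Xset q.out.1).card + 1) := by
  classical
  have hfin : Finite (Quotient (distinctTupleOrbits (affGroup V) (n + 1))) :=
    Nat.finite_of_card_ne_zero hF'
  let S : Finset (Σ _ : Quotient (distinctTupleOrbits (affGroup V) n), Option V) :=
    Finset.univ.sigma (fun q => Finset.insertNone (Xset q.out.1))
  have hS : S.card = ∑ q : Quotient (distinctTupleOrbits (affGroup V) n),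
      ((Xset q.out.1).card + 1) := by
    rw [Finset.card_sigma]
    simp
  rw [← hS]
  let Rel : {a : Fin (n + 1) → V // Function.Injective a} →
      (Σ _ : Quotient (distinctTupleOrbits (affGroup V) n), Option V) → Prop :=
    fun a z => ∃ x, SameOrbit (affGroup V) a.1 (Fin.snoc z.1.out.1 x) ∧
      (z.2 = some x ∧ x ∈ Xset z.1.out.1 ∨ z.2 = none ∧ x ∉ Aff z.1.out.1)
  have hRel : ∀ a, ∃ z, Rel a z := by
    intro a
    have hinj : Function.Injective (Fin.init a.1 : Fin n → V) :=
      fun i j h => Fin.castSucc_injective n (a.2 h)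
    let q := Quotient.mk (distinctTupleOrbits (affGroup V) n) ⟨Fin.init a.1, hinj⟩
    have hq : SameOrbit (affGroup V) (Fin.init a.1) q.out.1 := by
      have : Quotient.mk (distinctTupleOrbits (affGroup V) n) ⟨Fin.init a.1, hinj⟩ =
        Quotient.mk (distinctTupleOrbits (affGroup V) n) q.out := (Quotient.out_eq q).symm
      exact mk_eq_iff.1 this
    obtain ⟨g, hg, h⟩ := hq
    have h1 : SameOrbit (affGroup V) a.1 (Fin.snoc q.out.1 (g (a.1 (Fin.last n)))) := by
      refine ⟨g, hg, fun i => ?_⟩
      refine Fin.lastCases ?_ (fun j => ?_) i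
      · simp
      · simp only [Fin.snoc_castSucc]
        exact h j
    have hne : ∀ i, q.out.1 i ≠ g (a.1 (Fin.last n)) := by
      intro i hi
      rw [← h i] at hi
      have h2 := a.2 (g.injective hi)
      exact absurd h2 (Fin.castSucc_ne_last i)
    by_cases hx : g (a.1 (Fin.last n)) ∈ Aff q.out.1
    · exact ⟨⟨q, some (g (a.1 (Fin.last n)))⟩, _, h1, Or.inl ⟨rfl, mem_Xset.2 ⟨hx, hne⟩⟩⟩
    · exact ⟨⟨q, none⟩, _, h1, Or.inr ⟨rfl, hx⟩⟩
  choose f hf using hRel
  have hRelinj : ∀ a b, f a = f b → SameOrbit (affGroup V) a.1 b.1 := by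
    intro a b hab
    obtain ⟨x, hx1, hx2⟩ := hf a
    obtain ⟨y, hy1, hy2⟩ := hf b
    rw [← hab] at hy1 hy2
    refine hx1.trans (SameOrbit.trans ?_ hy1.symm)
    rcases hx2 with ⟨h1, h2⟩ | ⟨h1, h2⟩
    · rcases hy2 with ⟨h3, h4⟩ | ⟨h3, h4⟩
      · rw [h1] at h3
        rw [Option.some_injective _ h3]
        exact SameOrbit.refl _
      · rw [h1] at h3
        exact absurd h3 (by simp)
    · rcases hy2 with ⟨h3, h4⟩ | ⟨h3, h4⟩
      · rw [h1] at h3
        exact absurd h3 (by simp)
      · exact aff_homogeneous (code_snoc_of_notMem rfl h2 h4)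
  have hmem : ∀ a, f a ∈ S := by
    intro a
    obtain ⟨x, hx1, hx2⟩ := hf a
    simp only [S, Finset.mem_sigma, Finset.mem_univ, true_and]
    rcases hx2 with ⟨h1, h2⟩ | ⟨h1, h2⟩
    · rw [h1]
      exact Finset.some_mem_insertNone.2 h2
    · rw [h1]
      simp
  have h5 := F_le_card_sub (G := affGroup V) (n := n + 1) (κ := S)
    (fun a => ⟨f a, hmem a⟩) (fun a b h => hRelinj a b (congrArg Subtype.val h))
  simpa using h5

theorem aff_card_le (n : ℕ) (a : Fin (n + 1) → V) : (Aff a).ncard ≤ 2 ^ n := by
  classical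
  have h1 : Aff a ⊆ Set.range (fun c : Fin n → ZMod 2 =>
      comb (Fin.snoc c (1 + ∑ i, c i) : Fin (n + 1) → ZMod 2) a) := by
    rintro x ⟨c, hc, rfl⟩
    refine ⟨Fin.init c, ?_⟩
    have h2 : 1 + ∑ i, Fin.init c i = c (Fin.last n) := by
      rw [← hc, Fin.sum_univ_castSucc]
      have : ∀ s t : ZMod 2, s + t + s = t := by decide
      exact this _ _
    simp only [h2, Fin.snoc_init_self]
  refine (Set.ncard_le_ncard h1 (Set.finite_range _)).trans ?_
  rw [← Set.image_univ]
  refine (Set.ncard_image_le Set.finite_univ).trans ?_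
  rw [Set.ncard_univ]
  simp

theorem aff_card_five {a : Fin 5 → V} {i : Fin 5}
    (hi : (fun _ => 1) + Pi.single i 1 ∈ Code a) : (Aff a).ncard ≤ 8 := by
  classical
  obtain ⟨j, hj⟩ : ∃ j : Fin 5, j ≠ i := ⟨i + 1, (by decide : ∀ i : Fin 5, i + 1 ≠ i) i⟩
  let T : Finset (Fin 5 → ZMod 2) := Finset.univ.filter (fun c => ∑ i, c i = 1 ∧ c j = 0)
  have hT : T.card = 8 := by
    have : ∀ j : Fin 5, (Finset.univ.filter
      (fun c : Fin 5 → ZMod 2 => ∑ i, c i = 1 ∧ c j = 0)).card = 8 := by decide
    exact this j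
  have h1 : Aff a ⊆ (T.image (fun c => comb c a) : Finset V) := by
    rintro x ⟨c, hc, rfl⟩
    simp only [Finset.coe_image, Set.mem_image, T, Finset.coe_filter, Finset.mem_univ, true_and,
      Set.mem_ofPred_eq]
    rcases zmod_cases (c j) with h | h
    · exact ⟨c, ⟨hc, h⟩, rfl⟩
    · refine ⟨c + ((fun _ => 1) + Pi.single i 1), ⟨?_, ?_⟩, ?_⟩
      · rw [sum_add, hc, hi.1, add_zero]
      · simp [h, hj]
        decide
      · rw [comb_add, hi.2, add_zero]
  refine (Set.ncard_le_ncard h1 (Finset.finite_toSet _)).trans ?_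
  rw [Set.ncard_coe_finset]
  exact Finset.card_image_le.trans hT.le

theorem aff_F_six : F (affGroup V) 6 ≤ 32 := by
  classical
  have hF5 : F (affGroup V) 5 ≠ 0 := aff_F_ne_zero (by norm_num)
  have hF6 : F (affGroup V) 6 ≠ 0 := aff_F_ne_zero (by norm_num)
  have hfin : Finite (Quotient (distinctTupleOrbits (affGroup V) 5)) :=
    Nat.finite_of_card_ne_zero hF5
  have := Fintype.ofFinite (Quotient (distinctTupleOrbits (affGroup V) 5))
  refine (ext_bound hF6).trans ?_
  let free : Quotient (distinctTupleOrbits (affGroup V) 5) → Prop := fun q =>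
    ¬ ∃ i, (fun _ => 1) + Pi.single i 1 ∈ Code q.out.1
  have h1 : ∀ q, (Xset q.out.1).card + 1 ≤ 4 + (if free q then 8 else 0) := by
    intro q
    have hX := card_Xset q.out.2
    by_cases h : free q
    · rw [if_pos h]
      have := aff_card_le 4 q.out.1
      omega
    · rw [if_neg h]
      have h' : ∃ i, (fun _ => 1) + Pi.single i 1 ∈ Code q.out.1 := not_not.1 h
      obtain ⟨i, hi⟩ := h'
      have := aff_card_five hi
      omega
  refine (Finset.sum_le_sum fun q _ => h1 q).trans ?_
  rw [Finset.sum_add_distrib, Finset.sum_const, ← Finset.sum_filter, Finset.sum_const]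
  have h2 : (Finset.univ : Finset (Quotient (distinctTupleOrbits (affGroup V) 5))).card ≤ 6 := by
    have := aff_F_five (V := V)
    unfold F at this
    rwa [Nat.card_eq_fintype_card] at this
  have h3 : ∀ (inst : DecidablePred free), (@Finset.filter _ free inst Finset.univ).card ≤ 1 := by
    intro inst
    rw [Finset.card_le_one]
    intro p hp q hq
    simp only [Finset.mem_filter, Finset.mem_univ, true_and] at hp hq
    have hcode : Code p.out.1 = Code q.out.1 := by
      ext c
      rw [code_five p.out.2, code_five q.out.2]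
      refine or_congr_right (exists_congr fun i => and_congr_right fun _ => ?_)
      exact ⟨fun h => absurd ⟨i, h⟩ hp, fun h => absurd ⟨i, h⟩ hq⟩
    have h2 := (mk_eq_iff (a := p.out) (b := q.out)).2 (aff_homogeneous hcode)
    rwa [Quotient.out_eq, Quotient.out_eq] at h2
  rw [smul_eq_mul, smul_eq_mul]
  exact (Nat.add_le_add (Nat.mul_le_mul_right 4 h2) (Nat.mul_le_mul_right 8 (h3 _)))

theorem aff_F_succ_le (n : ℕ) : F (affGroup V) (n + 2) ≤ 2 ^ n * F (affGroup V) (n + 1) := by
  classical
  have hF5 : F (affGroup V) (n + 1) ≠ 0 := aff_F_ne_zero (by omega)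
  have hF6 : F (affGroup V) (n + 2) ≠ 0 := aff_F_ne_zero (by omega)
  have hfin : Finite (Quotient (distinctTupleOrbits (affGroup V) (n + 1))) :=
    Nat.finite_of_card_ne_zero hF5
  have := Fintype.ofFinite (Quotient (distinctTupleOrbits (affGroup V) (n + 1)))
  refine (ext_bound hF6).trans ?_
  have h1 : ∀ q : Quotient (distinctTupleOrbits (affGroup V) (n + 1)),
      (Xset q.out.1).card + 1 ≤ 2 ^ n := by
    intro q
    have hX := card_Xset q.out.2
    have := aff_card_le n q.out.1
    omega
  refine (Finset.sum_le_sum fun q _ => h1 q).trans ?_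
  rw [Finset.sum_const, smul_eq_mul, mul_comm]
  unfold F
  rw [Nat.card_eq_fintype_card]
  rfl

end Countable

end Pool.Agent.Lib.MP_3f2714_al
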