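import Mathlib
import Pool.Agent.Lib.MP_3f2714_al.Affine

namespace Pool.Agent.Lib.MP_3f2714_al

universe u

section

variable {Ω : Type u}

/-- A Boolean quadruple system. -/
structure BoolSys (r : Ω → Ω → Ω → Ω → Prop) : Prop where
  ne : ∀ {a b c d}, r a b c d → a ≠ b ∧ a ≠ c ∧ a ≠ d ∧ b ≠ c ∧ b ≠ d ∧ c ≠ d
  s1 : ∀ {a b c d}, r a b c d → r b a c d
  s2 : ∀ {a b c d}, r a b c d → r a c b d
  s3 : ∀ {a b c d}, r a b c d → r a b d c
  ex : ∀ {a b c}, a ≠ b → a ≠ c → b ≠ c → ∃ d, r a b c d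
  uni : ∀ {a b c d e}, r a b c d → r a b c e → d = e
  bool : ∀ {a b c d e x}, r a b c d → e ≠ a → e ≠ b → e ≠ c → e ≠ d → r a b e x → r c d e x

/-- closure of the quadruple relation under degenerate quadruples -/
def QQ (r : Ω → Ω → Ω → Ω → Prop) (a b c d : Ω) : Prop :=
  (a = b ∧ c = d) ∨ (a = c ∧ b = d) ∨ (a = d ∧ b = c) ∨ r a b c d

variable {r : Ω → Ω → Ω → Ω → Prop} (h : BoolSys r)

include h

theorem QQ.s1 {a b c d : Ω} (q : QQ r a b c d) : QQ r b a c d := by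
  rcases q with ⟨rfl, rfl⟩ | ⟨rfl, rfl⟩ | ⟨rfl, rfl⟩ | q
  · exact Or.inl ⟨rfl, rfl⟩
  · exact Or.inr (Or.inr (Or.inl ⟨rfl, rfl⟩))
  · exact Or.inr (Or.inl ⟨rfl, rfl⟩)
  · exact Or.inr (Or.inr (Or.inr (h.s1 q)))

theorem QQ.s2 {a b c d : Ω} (q : QQ r a b c d) : QQ r a c b d := by
  rcases q with ⟨rfl, rfl⟩ | ⟨rfl, rfl⟩ | ⟨rfl, rfl⟩ | q
  · exact Or.inr (Or.inl ⟨rfl, rfl⟩)
  · exact Or.inl ⟨rfl, rfl⟩
  · exact Or.inr (Or.inr (Or.inl ⟨rfl, rfl⟩))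
  · exact Or.inr (Or.inr (Or.inr (h.s2 q)))

theorem QQ.s3 {a b c d : Ω} (q : QQ r a b c d) : QQ r a b d c := by
  rcases q with ⟨rfl, rfl⟩ | ⟨rfl, rfl⟩ | ⟨rfl, rfl⟩ | q
  · exact Or.inl ⟨rfl, rfl⟩
  · exact Or.inr (Or.inr (Or.inl ⟨rfl, rfl⟩))
  · exact Or.inr (Or.inl ⟨rfl, rfl⟩)
  · exact Or.inr (Or.inr (Or.inr (h.s3 q)))

theorem QQ.ex (a b c : Ω) : ∃ d, QQ r a b c d := by
  by_cases h1 : a = b
  · exact ⟨c, Or.inl ⟨h1, rfl⟩⟩
  · by_cases h2 : a = c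
    · exact ⟨b, Or.inr (Or.inl ⟨h2, rfl⟩)⟩
    · by_cases h3 : b = c
      · exact ⟨a, Or.inr (Or.inr (Or.inl ⟨rfl, h3⟩))⟩
      · obtain ⟨d, hd⟩ := h.ex h1 h2 h3
        exact ⟨d, Or.inr (Or.inr (Or.inr hd))⟩

theorem QQ.uni {a b c d e : Ω} (q : QQ r a b c d) (q' : QQ r a b c e) : d = e := by
  rcases q with ⟨rfl, rfl⟩ | ⟨rfl, rfl⟩ | ⟨rfl, rfl⟩ | q
  · rcases q' with ⟨_, h2⟩ | ⟨h1, h2⟩ | ⟨h1, h2⟩ | q'
    · exact h2
    · rw [← h1, h2]
    · rw [← h1, h2]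
    · exact absurd rfl (h.ne q').1
  · rcases q' with ⟨h1, h2⟩ | ⟨h1, h2⟩ | ⟨h1, h2⟩ | q'
    · rw [← h1, h2]
    · exact h2
    · rw [h2, ← h1]
    · exact absurd rfl (h.ne q').2.1
  · rcases q' with ⟨h1, h2⟩ | ⟨h1, h2⟩ | ⟨h1, h2⟩ | q'
    · rw [← h2, h1]
    · rw [← h2, h1]
    · exact h1
    · exact absurd rfl (h.ne q').2.2.2.1
  · have h0 := h.ne q
    rcases q' with ⟨h1, h2⟩ | ⟨h1, h2⟩ | ⟨h1, h2⟩ | q'
    · exact absurd h1 h0.1
    · exact absurd h1 h0.2.1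
    · exact absurd h2 h0.2.2.2.1
    · exact h.uni q q'

theorem QQ.trans {a b x y c d : Ω} (q : QQ r a b x y) (q' : QQ r x y c d) :
    QQ r a b c d := by
  rcases q with ⟨rfl, rfl⟩ | ⟨rfl, rfl⟩ | ⟨rfl, rfl⟩ | q
  · rcases q' with ⟨h1, h2⟩ | ⟨h1, h2⟩ | ⟨h1, h2⟩ | q'
    · exact Or.inl ⟨rfl, h2⟩
    · exact Or.inl ⟨rfl, by rw [← h1, h2]⟩
    · exact Or.inl ⟨rfl, by rw [← h1, h2]⟩
    · exact absurd rfl (h.ne q').1
  · exact q'
  · exact QQ.s1 h q'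
  · have h0 := h.ne q
    rcases q' with ⟨h1, h2⟩ | ⟨rfl, rfl⟩ | ⟨rfl, rfl⟩ | q'
    · exact absurd h1 h0.2.2.2.2.2
    · exact Or.inr (Or.inr (Or.inr q))
    · exact Or.inr (Or.inr (Or.inr (h.s3 q)))
    · by_cases h1 : c = a
      · subst h1
        -- q : r c b x y, q' : r x y c d
        have h2 : r x y c b := h.s2 (h.s3 (h.s1 (h.s2 q)))
        exact Or.inr (Or.inl ⟨rfl, h.uni h2 q'⟩)
      · by_cases h2 : c = b
        · subst h2
          have h3 : r x y c a := h.s3 (h.s2 (h.s3 (h.s1 (h.s2 q))))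
          exact Or.inr (Or.inr (Or.inl ⟨h.uni h3 q', rfl⟩))
        · have h0' := h.ne q'
          -- block x y a b, e = c, r x y c d ⟹ r a b c d
          have h3 : r x y a b := h.s2 (h.s1 (h.s3 (h.s2 q)))
          exact Or.inr (Or.inr (Or.inr (h.bool h3 h0'.2.1.symm h0'.2.2.2.1.symm h1 h2 q')))

/-- the group structure attached to a Boolean quadruple system -/
theorem exists_group (o : Ω) (G : Subgroup (Equiv.Perm Ω))
    (hG : ∀ g ∈ G, ∀ a b c d, r a b c d → r (g a) (g b) (g c) (g d)) :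
    ∃ (_ : AddCommGroup Ω) (_ : Module (ZMod 2) Ω), G ≤ affGroup Ω := by
  choose add hadd using fun x y => QQ.ex h x y o
  -- `hadd x y : QQ r x y o (add x y)`
  have hzero : ∀ x, add x o = x := by
    intro x
    have h1 : QQ r x o o x := Or.inr (Or.inr (Or.inl ⟨rfl, rfl⟩))
    exact QQ.uni h (hadd x o) h1
  have hcomm : ∀ x y, add x y = add y x := by
    intro x y
    exact QQ.uni h (QQ.s1 h (hadd x y)) (hadd y x)
  have hself : ∀ x, add x x = o := by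
    intro x
    have h1 : QQ r x x o o := Or.inl ⟨rfl, rfl⟩
    exact QQ.uni h (hadd x x) h1
  have hassoc : ∀ x y z, add (add x y) z = add x (add y z) := by
    intro x y z
    have e1 := hadd x y
    have e2 := hadd (add x y) z
    have e3 := hadd y z
    have e4 := hadd x (add y z)
    -- e1 : (x, y) ~ (o, p); e2 : (p, z) ~ (o, q); e3 : (y, z) ~ (o, s)
    have f1 : QQ r x o y (add x y) := QQ.s2 h e1
    -- (y, p) ~ (s, q)
    have f2 : QQ r y (add y z) z o := by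
      -- from y z o s
      have := QQ.s3 h e3
      -- y z s o
      exact QQ.s2 h this
    have f3 : QQ r z o (add x y) (add (add x y) z) := by
      -- from p z o q
      have a1 := QQ.s1 h e2
      -- z p o q
      exact QQ.s2 h a1
    have f4 : QQ r y (add y z) (add x y) (add (add x y) z) := QQ.trans h f2 f3
    have f5 : QQ r y (add x y) (add y z) (add (add x y) z) := QQ.s2 h f4
    have f6 : QQ r x o (add y z) (add (add x y) z) := QQ.trans h f1 f5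
    have f7 : QQ r x (add y z) o (add (add x y) z) := QQ.s2 h f6
    exact QQ.uni h f7 e4
  let _ : Zero Ω := ⟨o⟩
  let _ : Add Ω := ⟨add⟩
  let _ : Neg Ω := ⟨id⟩
  let inst : AddCommGroup Ω :=
    { add_assoc := hassoc
      zero_add := fun x => (hcomm o x).trans (hzero x)
      add_zero := hzero
      nsmul := nsmulRec
      zsmul := zsmulRec
      neg_add_cancel := hself
      add_comm := hcomm }
  have hdouble : ∀ x : Ω, (2 : ℕ) • x = 0 := by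
    intro x
    rw [two_nsmul]
    exact hself x
  refine ⟨inst, AddCommGroup.zmodModule hdouble, ?_⟩
  intro g hg
  have hQ : ∀ a b c d, QQ r a b c d → QQ r (g a) (g b) (g c) (g d) := by
    rintro a b c d (⟨rfl, rfl⟩ | ⟨rfl, rfl⟩ | ⟨rfl, rfl⟩ | q)
    · exact Or.inl ⟨rfl, rfl⟩
    · exact Or.inr (Or.inl ⟨rfl, rfl⟩)
    · exact Or.inr (Or.inr (Or.inl ⟨rfl, rfl⟩))
    · exact Or.inr (Or.inr (Or.inr (hG g hg _ _ _ _ q)))
  have hsum : ∀ a b c : Ω, QQ r a b c (a + b + c) := by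
    intro a b c
    have e1 : QQ r a b o (a + b) := hadd a b
    have e2 : QQ r (a + b) c o (a + b + c) := hadd (a + b) c
    have f1 : QQ r o (a + b) c (a + b + c) := QQ.s1 h (QQ.s2 h e2)
    exact QQ.trans h e1 f1
  intro a b c
  exact QQ.uni h (hQ _ _ _ _ (hsum a b c)) (hsum (g a) (g b) (g c))

end

end Pool.Agent.Lib.MP_3f2714_al
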