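import Mathlib
import Pool.Agent.Lib.MP_3f2714_al.AffineCount

namespace Pool.Agent.Lib.MP_3f2714_al

/-- a countably infinite vector space over the field with two elements -/
abbrev VV := ℕ →₀ ZMod 2

/-- unit vectors -/
noncomputable def ee (n : ℕ) : Fin n → VV := fun i => Finsupp.single (i : ℕ) 1

theorem comb_ee_apply {n : ℕ} (c : Fin n → ZMod 2) (j : Fin n) : comb c (ee n) (j : ℕ) = c j := by
  unfold comb ee
  rw [Finsupp.finsetSum_apply, Finset.sum_eq_single j]
  · simp
  · intro i _ hij
    have : (i : ℕ) ≠ (j : ℕ) := fun h => hij (Fin.ext h)
    simp [this]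
  · intro h
    exact absurd (Finset.mem_univ j) h

theorem comb_ee_injective {n : ℕ} : Function.Injective (fun c : Fin n → ZMod 2 => comb c (ee n)) := by
  intro c d h
  funext j
  have := congrArg (fun v : VV => v (j : ℕ)) h
  simpa [comb_ee_apply] using this

theorem ee_injective (n : ℕ) : Function.Injective (ee n) := by
  intro i j h
  have h1 : comb (Pi.single i 1) (ee n) = comb (Pi.single j 1) (ee n) := by
    rw [comb_single, comb_single, h]
  have h2 := comb_ee_injective h1
  by_contra hij
  have := congrFun h2 i
  simp [hij] at this

theorem vv_F_four : F (affGroup VV) 4 = 2 := by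
  apply le_antisymm aff_F_four_le
  have h3 : ∀ i : Fin 3, ee 3 i ≠ comb (fun _ => 1) (ee 3) := by
    intro i h
    rw [← comb_single i (ee 3)] at h
    have h5 := comb_ee_injective h
    exact (by decide : ∀ i : Fin 3, (Pi.single i 1 : Fin 3 → ZMod 2) ≠ fun _ => 1) i h5
  have hinj : Function.Injective (Fin.snoc (ee 3) (comb (fun _ => 1) (ee 3)) : Fin 4 → VV) := by
    intro i j
    refine Fin.lastCases ?_ (fun i => ?_) i
    · refine Fin.lastCases ?_ (fun j => ?_) j
      · simp
      · simp only [Fin.snoc_last, Fin.snoc_castSucc]
        intro h
        exact absurd h.symm (h3 j)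
    · refine Fin.lastCases ?_ (fun j => ?_) j
      · simp only [Fin.snoc_last, Fin.snoc_castSucc]
        intro h
        exact absurd h (h3 i)
      · simp only [Fin.snoc_castSucc]
        intro h
        rw [ee_injective 3 h]
  have hc1 : (fun _ => 1 : Fin 4 → ZMod 2) ∉ Code (ee 4) := by
    intro h
    have h1 : comb (fun _ => 1 : Fin 4 → ZMod 2) (ee 4) = comb 0 (ee 4) := by
      rw [h.2]; simp [comb]
    have := congrFun (comb_ee_injective h1) 0
    simp at this
  have hc2 : (fun _ => 1 : Fin 4 → ZMod 2) ∈
      Code (Fin.snoc (ee 3) (comb (fun _ => 1) (ee 3)) : Fin 4 → VV) := by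
    rw [mem_code_snoc]
    right
    exact ⟨rfl, by decide, rfl⟩
  have := card_le_F (G := affGroup VV) (n := 4) (ι := Bool) (aff_F_ne_zero (by norm_num))
    (fun i => if i then ee 4 else (Fin.snoc (ee 3) (comb (fun _ => 1) (ee 3)) : Fin 4 → VV)) (by
      intro i
      cases i
      · simpa using hinj
      · simpa using ee_injective 4) (by
      intro i j hij
      have := code_of_sameOrbit le_rfl hij
      cases i <;> cases j
      · rfl
      · simp only [Bool.false_eq_true, if_false, if_true] at this
        rw [this] at hc2
        exact absurd hc2 hc1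
      · simp only [Bool.false_eq_true, if_false, if_true] at this
        rw [← this] at hc2
        exact absurd hc2 hc1
      · rfl)
  simpa using this

/-- the coefficient vectors of the points of the affine span of seven independent points which
are not one of the seven points -/
abbrev CC := {c : Fin 7 → ZMod 2 // ∑ i, c i = 1 ∧ ∀ i, c ≠ Pi.single i 1}

theorem card_CC : Fintype.card CC = 57 := by
  decide +kernel

theorem vv_F_eleven : 57 * 56 * 55 * 54 ≤ F (affGroup VV) 11 := by
  have h := card_le_F (G := affGroup VV) (n := 11) (ι := Fin 4 ↪ CC) (aff_F_ne_zero (by norm_num))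
    (fun x => (Fin.append (ee 7) (fun j => comb (x j).1 (ee 7)) : Fin (7 + 4) → VV)) (by
      intro x
      have h1 : ∀ (i : Fin 7) (j : Fin 4), ee 7 i ≠ comb (x j).1 (ee 7) := by
        intro i j h
        rw [← comb_single i (ee 7)] at h
        exact (x j).2.2 i (comb_ee_injective h).symm
      intro i j
      refine Fin.addCases (m := 7) (n := 4) (fun i => ?_) (fun i => ?_) i
      · refine Fin.addCases (m := 7) (n := 4) (fun j => ?_) (fun j => ?_) j
        · simp only [Fin.append_left]
          intro h
          rw [ee_injective 7 h]
        · simp only [Fin.append_left, Fin.append_right]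
          intro h
          exact absurd h (h1 i j)
      · refine Fin.addCases (m := 7) (n := 4) (fun j => ?_) (fun j => ?_) j
        · simp only [Fin.append_left, Fin.append_right]
          intro h
          exact absurd h.symm (h1 j i)
        · simp only [Fin.append_right]
          intro h
          rw [x.injective (Subtype.ext (comb_ee_injective h))]) (by
      intro x y hxy
      obtain ⟨g, hg, h⟩ := hxy
      have h1 : ∀ i, g (ee 7 i) = ee 7 i := by
        intro i
        have := h (Fin.castAdd 4 i)
        simpa only [Fin.append_left] using this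
      have h2 : ∀ j, g (comb (x j).1 (ee 7)) = comb (y j).1 (ee 7) := by
        intro j
        have := h (Fin.natAdd 7 j)
        simpa only [Fin.append_right] using this
      ext j : 2
      have h3 := h2 j
      rw [aff_comb_one hg (x j).2.1] at h3
      have h4 : (fun i => g (ee 7 i)) = ee 7 := funext h1
      rw [h4] at h3
      exact comb_ee_injective h3)
  rw [Nat.card_eq_fintype_card, Fintype.card_embedding_eq, card_CC, Fintype.card_fin] at h
  refine le_trans (le_of_eq ?_) h
  decide

end Pool.Agent.Lib.MP_3f2714_al
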