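import Mathlib
import Pool.Agent.Lib.MP_3f2714_al.Concrete

namespace Pool.Agent.Lib.MP_3f2714_al

set_option linter.unusedSectionVars false

section

variable {E : Type*} [AddCommGroup E] [Module (ZMod 2) E] [Infinite E]

theorem injective_of_sameOrbit {Ω : Type*} {G : Subgroup (Equiv.Perm Ω)} {n : ℕ}
    {a b : Fin n → Ω} (h : SameOrbit G a b) (ha : Function.Injective a) :
    Function.Injective b := by
  obtain ⟨g, _, h⟩ := h
  intro i j hij
  rw [← h i, ← h j] at hij
  exact ha (g.injective hij)

theorem F_aff_eq_card_codes (E : Type*) [AddCommGroup E] [Module (ZMod 2) E] [Infinite E]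
    (n : ℕ) : F (affGroup VV) n = Nat.card (Codes E n) := by
  rw [aff_F_eq, codes_eq E]

theorem sameOrbit_of_code {G : Subgroup (Equiv.Perm E)} (hG : G ≤ affGroup E) {k : ℕ}
    (hk : F G k = F (affGroup VV) k) (hk0 : F G k ≠ 0) {a b : Fin k → E}
    (ha : Function.Injective a) (hb : Function.Injective b) (h : Code a = Code b) :
    SameOrbit G a b := by
  have hfin : Finite (Quotient (distinctTupleOrbits G k)) := Nat.finite_of_card_ne_zero hk0
  let φ : Quotient (distinctTupleOrbits G k) → Codes E k :=
    fun q => ⟨Code q.out.1, q.out.1, q.out.2, rfl⟩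
  have hφ : ∀ (c : Fin k → E) (hc : Function.Injective c),
      φ (Quotient.mk _ ⟨c, hc⟩) = ⟨Code c, c, hc, rfl⟩ := by
    intro c hc
    apply Subtype.ext
    have h1 : Quotient.mk (distinctTupleOrbits G k)
        (Quotient.mk (distinctTupleOrbits G k) ⟨c, hc⟩).out =
        Quotient.mk (distinctTupleOrbits G k) ⟨c, hc⟩ := Quotient.out_eq _
    exact code_of_sameOrbit hG (mk_eq_iff.1 h1)
  have hsurj : Function.Surjective φ := by
    rintro ⟨C, c, hc, rfl⟩
    exact ⟨_, hφ c hc⟩
  have hcard : Nat.card (Quotient (distinctTupleOrbits G k)) ≤ Nat.card (Codes E k) := by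
    have h2 := F_aff_eq_card_codes E k
    rw [← hk] at h2
    exact h2.le
  have hbij := hsurj.bijective_of_nat_card_le hcard
  have h3 : φ (Quotient.mk _ ⟨a, ha⟩) = φ (Quotient.mk _ ⟨b, hb⟩) := by
    rw [hφ, hφ]
    exact Subtype.ext h
  exact mk_eq_iff.1 (hbij.1 h3)

theorem sameOrbit_of_dependent {G : Subgroup (Equiv.Perm E)} (hG : G ≤ affGroup E) {k : ℕ}
    (hk : F G k = F (affGroup VV) k) (hk0 : F G k ≠ 0) {a b : Fin (k + 1) → E}
    (ha : Function.Injective a) (hb : Function.Injective b) (h : Code a = Code b)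
    (hne : Code a ≠ {0}) : SameOrbit G a b := by
  obtain ⟨d, hd, hd0⟩ : ∃ d ∈ Code a, d ≠ 0 := by
    by_contra hcon
    push Not at hcon
    apply hne
    ext c
    exact ⟨fun hc => hcon c hc, fun hc => by
      rw [Set.mem_singleton_iff] at hc
      rw [hc]
      exact zero_mem_code a⟩
  obtain ⟨i, hi⟩ : ∃ i, d i = 1 := by
    by_contra hcon
    push Not at hcon
    apply hd0
    funext i
    rcases zmod_cases (d i) with h1 | h1
    · exact h1
    · exact absurd h1 (hcon i)
  have key : ∀ a : Fin (k + 1) → E, d ∈ Code a →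
      ∑ j, d (i.succAbove j) = 1 ∧
        comb (fun j => d (i.succAbove j)) (a ∘ i.succAbove) = a i := by
    intro a hda
    obtain ⟨h1, h2⟩ := hda
    rw [Fin.sum_univ_succAbove _ i, hi] at h1
    unfold comb at h2
    rw [Fin.sum_univ_succAbove _ i, hi, one_smul] at h2
    refine ⟨?_, ?_⟩
    · have : ∀ s : ZMod 2, 1 + s = 0 → s = 1 := by decide
      exact this _ h1
    · exact (eq_of_add_zero h2).symm
  obtain ⟨h1, h2⟩ := key a hd
  obtain ⟨_, h3⟩ := key b (h ▸ hd)
  obtain ⟨g, hg, hgab⟩ := sameOrbit_of_code hG hk hk0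
    (ha.comp (Fin.succAbove_right_injective (p := i)))
    (hb.comp (Fin.succAbove_right_injective (p := i))) (code_comp h i.succAbove)
  refine ⟨g, hg, fun j => ?_⟩
  have h4 : g (a i) = b i := by
    rw [← h2, aff_comb_one (hG hg) h1, ← h3]
    congr 1
    funext j
    exact hgab j
  by_cases hj : j = i
  · rw [hj, h4]
  · obtain ⟨l, rfl⟩ := Fin.exists_succAbove_eq hj
    exact hgab l

theorem snoc_injective {Ω : Type*} {k : ℕ} {w : Fin k → Ω} (hw : Function.Injective w) {x : Ω}
    (hx : ∀ i, w i ≠ x) : Function.Injective (Fin.snoc w x : Fin (k + 1) → Ω) := by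
  intro i j
  refine Fin.lastCases ?_ (fun i => ?_) i
  · refine Fin.lastCases ?_ (fun j => ?_) j
    · simp
    · simp only [Fin.snoc_last, Fin.snoc_castSucc]
      intro h
      exact absurd h.symm (hx j)
  · refine Fin.lastCases ?_ (fun j => ?_) j
    · simp only [Fin.snoc_last, Fin.snoc_castSucc]
      intro h
      exact absurd h (hx i)
    · simp only [Fin.snoc_castSucc]
      intro h
      rw [hw h]

theorem ne_of_snoc_injective {Ω : Type*} {k : ℕ} {w : Fin k → Ω} {x : Ω}
    (h : Function.Injective (Fin.snoc w x : Fin (k + 1) → Ω)) (i : Fin k) : w i ≠ x := by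
  intro hi
  have := @h (Fin.castSucc i) (Fin.last k) (by simp [hi])
  exact Fin.castSucc_ne_last i this

theorem code_init_of_indep {k : ℕ} {a : Fin (k + 1) → E} (ha : Code a = {0}) :
    Code (a ∘ Fin.castSucc) = {0} := by
  ext c
  constructor
  · intro hc
    have h1 : (Fin.snoc c 0 : Fin (k + 1) → ZMod 2) ∈ Code a := by
      have h2 : a = Fin.snoc (Fin.init a) (a (Fin.last k)) := (Fin.snoc_init_self a).symm
      rw [h2, mem_code_snoc]
      left
      simp only [Fin.snoc_last, Fin.snoc_castSucc, true_and]
      exact hc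
    rw [ha, Set.mem_singleton_iff] at h1
    rw [Set.mem_singleton_iff]
    funext i
    have := congrFun h1 (Fin.castSucc i)
    simpa using this
  · rintro rfl
    exact zero_mem_code _

/-- The main counting argument. -/
theorem main_count {G : Subgroup (Equiv.Perm E)} (hG : G ≤ affGroup E) {k : ℕ}
    (hk : F G k = F (affGroup VV) k) (hk0 : F G k ≠ 0)
    (hk1 : 2 * F (affGroup VV) (k + 1) ≤ F G (k + 1)) (hk2 : F G (k + 2) ≠ 0) :
    (F (affGroup VV) (k + 1) + 1) * F (affGroup VV) (k + 1) ≤ F G (k + 2) := by
  classical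
  set c := F (affGroup VV) (k + 1) with hc
  have hcpos : c ≠ 0 := aff_F_ne_zero (by omega)
  have hF1 : F G (k + 1) ≠ 0 := by omega
  have hfin : Finite (Quotient (distinctTupleOrbits G (k + 1))) :=
    Nat.finite_of_card_ne_zero hF1
  have := Fintype.ofFinite (Quotient (distinctTupleOrbits G (k + 1)))
  let I : Finset (Quotient (distinctTupleOrbits G (k + 1))) :=
    Finset.univ.filter (fun q => Code q.out.1 = {0})
  let D : Finset (Quotient (distinctTupleOrbits G (k + 1))) :=
    Finset.univ.filter (fun q => ¬ Code q.out.1 = {0})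
  have hID : I.card + D.card = F G (k + 1) := by
    have h1 := Finset.card_filter_add_card_filter_not
      (s := (Finset.univ : Finset (Quotient (distinctTupleOrbits G (k + 1)))))
      (fun q => Code q.out.1 = {0})
    unfold F
    rw [Nat.card_eq_fintype_card, ← Finset.card_univ]
    exact h1
  -- the dependent orbits
  have hDcard : D.card + 1 ≤ c := by
    have hcodes : c = Nat.card (Codes E (k + 1)) := F_aff_eq_card_codes E (k + 1)
    have hfinC : (Codes E (k + 1)).Finite := Set.toFinite _
    have h2 : c = hfinC.toFinset.card := by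
      rw [hcodes, Nat.card_coe_set_eq, Set.ncard_eq_toFinset_card _ hfinC]
    have h3 : (D.image (fun q => Code q.out.1)).card = D.card := by
      apply Finset.card_image_of_injOn
      intro q hq q' hq' hqq
      simp only [D, Finset.coe_filter, Finset.mem_univ, true_and, Set.mem_ofPred_eq] at hq hq'
      have h4 := sameOrbit_of_dependent hG hk hk0 q.out.2 q'.out.2 hqq hq
      have h5 := (mk_eq_iff (a := q.out) (b := q'.out)).2 h4
      rwa [Quotient.out_eq, Quotient.out_eq] at h5
    have h4 : ({0} : Set (Fin (k + 1) → ZMod 2)) ∉ D.image (fun q => Code q.out.1) := by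
      intro h
      obtain ⟨q, hq, h⟩ := Finset.mem_image.1 h
      simp only [D, Finset.mem_filter, Finset.mem_univ, true_and] at hq
      exact hq h
    have h5 : insert ({0} : Set (Fin (k + 1) → ZMod 2)) (D.image (fun q => Code q.out.1)) ⊆
        hfinC.toFinset := by
      intro C hC
      rw [Set.Finite.mem_toFinset]
      rcases Finset.mem_insert.1 hC with h | h
      · rw [h, ← codes_eq (E := VV) E]
        refine ⟨ee (k + 1), ee_injective (k + 1), ?_⟩
        ext d
        constructor
        · intro hd
          have h6 : comb d (ee (k + 1)) = comb 0 (ee (k + 1)) := by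
            rw [hd.2]; simp [comb]
          exact comb_ee_injective h6
        · rintro rfl
          exact zero_mem_code _
      · obtain ⟨q, _, h⟩ := Finset.mem_image.1 h
        exact ⟨q.out.1, q.out.2, h⟩
    have h6 := Finset.card_le_card h5
    rw [Finset.card_insert_of_notMem h4, h3, ← h2] at h6
    exact h6
  have hIcard : c + 1 ≤ I.card := by omega
  -- an independent tuple
  obtain ⟨q0, hq0⟩ : ∃ q, q ∈ I := by
    apply Finset.card_pos.1
    omega
  let w : Fin k → E := q0.out.1 ∘ Fin.castSucc
  have hw : Function.Injective w := q0.out.2.comp (Fin.castSucc_injective k)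
  have hwc : Code w = {0} := by
    simp only [I, Finset.mem_filter, Finset.mem_univ, true_and] at hq0
    exact code_init_of_indep hq0
  have hx : ∀ q : Quotient (distinctTupleOrbits G (k + 1)), ∃ x : E, q ∈ I →
      SameOrbit G q.out.1 (Fin.snoc w x : Fin (k + 1) → E) := by
    intro q
    by_cases hq : q ∈ I
    · simp only [I, Finset.mem_filter, Finset.mem_univ, true_and] at hq
      have h1 : Code (q.out.1 ∘ Fin.castSucc) = Code w := by
        rw [hwc, code_init_of_indep hq]
      obtain ⟨g, hg, h⟩ := sameOrbit_of_code hG hk hk0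
        (q.out.2.comp (Fin.castSucc_injective k)) hw h1
      refine ⟨g (q.out.1 (Fin.last k)), fun _ => ⟨g, hg, fun i => ?_⟩⟩
      refine Fin.lastCases ?_ (fun j => ?_) i
      · simp
      · simp only [Fin.snoc_castSucc]
        exact h j
    · obtain ⟨x⟩ : Nonempty E := inferInstance
      exact ⟨x, fun h => absurd h hq⟩
  choose x hx using hx
  have hxinj : ∀ q ∈ I, Function.Injective (Fin.snoc w (x q) : Fin (k + 1) → E) :=
    fun q hq => injective_of_sameOrbit (hx q hq) q.out.2
  have hxeq : ∀ q ∈ I, ∀ q' ∈ I, SameOrbit G (Fin.snoc w (x q) : Fin (k + 1) → E)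
      (Fin.snoc w (x q') : Fin (k + 1) → E) → q = q' := by
    intro q hq q' hq' h
    have h1 : SameOrbit G q.out.1 q'.out.1 := ((hx q hq).trans h).trans (hx q' hq').symm
    have h5 := (mk_eq_iff (a := q.out) (b := q'.out)).2 h1
    rwa [Quotient.out_eq, Quotient.out_eq] at h5
  have hfinal := card_le_F (G := G) (n := k + 2) (ι := I.offDiag) hk2
    (fun z => (Fin.snoc (Fin.snoc w (x z.1.1) : Fin (k + 1) → E) (x z.1.2) :
      Fin (k + 2) → E)) (by
      rintro ⟨⟨q, q'⟩, hz⟩
      obtain ⟨hq, hq', hne⟩ := Finset.mem_offDiag.1 hz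
      refine snoc_injective (hxinj q hq) (fun i => ?_)
      refine Fin.lastCases ?_ (fun j => ?_) i
      · simp only [Fin.snoc_last]
        intro h
        apply hne
        apply hxeq q hq q' hq'
        rw [h]
        exact SameOrbit.refl _
      · simp only [Fin.snoc_castSucc]
        exact ne_of_snoc_injective (hxinj q' hq') j) (by
      rintro ⟨⟨q, q'⟩, hz⟩ ⟨⟨p, p'⟩, hz'⟩ h
      obtain ⟨hq, hq', _⟩ := Finset.mem_offDiag.1 hz
      obtain ⟨hp, hp', _⟩ := Finset.mem_offDiag.1 hz'
      obtain ⟨g, hg, h⟩ := h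
      have h0 : ∀ j : Fin k, g (w j) = w j := by
        intro j
        have := h (Fin.castSucc (Fin.castSucc j))
        simpa using this
      have h1 : g (x q) = x p := by
        have := h (Fin.castSucc (Fin.last k))
        simpa using this
      have h2 : g (x q') = x p' := by
        have := h (Fin.last (k + 1))
        simpa using this
      have h3 : q = p := hxeq q hq p hp ⟨g, hg, fun i => by
        refine Fin.lastCases ?_ (fun j => ?_) i
        · simpa using h1
        · simpa using h0 j⟩
      have h4 : q' = p' := hxeq q' hq' p' hp' ⟨g, hg, fun i => by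
        refine Fin.lastCases ?_ (fun j => ?_) i
        · simpa using h2
        · simpa using h0 j⟩
      rw [Subtype.mk.injEq, Prod.mk.injEq]
      exact ⟨h3, h4⟩)
  rw [Nat.card_eq_fintype_card, Fintype.card_coe, Finset.offDiag_card] at hfinal
  refine le_trans ?_ hfinal
  obtain ⟨t, ht⟩ := Nat.exists_eq_add_of_le hIcard
  rw [ht, Nat.le_sub_iff_add_le (by nlinarith)]
  nlinarith

end

end Pool.Agent.Lib.MP_3f2714_al
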