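import Mathlib
import Pool.Agent.Lib.MP_3f2714_al.Basic

namespace Pool.Agent.Lib.MP_3f2714_al

set_option linter.unusedSectionVars false

universe u

/-- cyclic faces of the 5-point set -/
def cyc (i : Fin 5) (j : Fin 4) : Fin 5 := i + 1 + j.castSucc

theorem cyc_injective (i : Fin 5) : Function.Injective (cyc i) := by
  revert i
  decide

/-- the transposition used -/
def sw : Equiv.Perm (Fin 5) := Equiv.swap 0 1

theorem sw_cyc : ∀ i : Fin 5, ∃ τ : Equiv.Perm (Fin 4), Equiv.Perm.sign τ = -1 ∧
    ∀ j, sw (cyc i j) = cyc (sw i) (τ j) := by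
  decide +kernel

/-- the weight of a pattern -/
def wt (p : Fin 5 → Bool) : ℕ := (Finset.univ.filter (fun i => p i = true)).card

theorem pat_decide : ∀ b : Bool, ∀ p : Fin 5 → Bool, (∃ i j, p i ≠ p j) →
    (Finset.univ.image (fun k : Fin 5 => fun i => p (i + k)) ∪
      Finset.univ.image (fun kl : Fin 5 × Fin 5 => fun i =>
        (p (sw (i + kl.1) + kl.2) == b))).card ≤ 6 →
    b = true ∧ (wt p = 1 ∨ wt p = 4) := by
  decide +kernel

theorem pat_decide2 : ∀ p q : Fin 5 → Bool, wt p = 1 → wt q = 4 →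
    10 ≤ (Finset.univ.image (fun k : Fin 5 => fun i => p (i + k)) ∪
      Finset.univ.image (fun k : Fin 5 => fun i => q (i + k))).card := by
  decide +kernel

theorem pat_decide3 : ∀ p : Fin 5 → Bool, wt p = 1 →
    7 ≤ (Finset.univ.image (fun k : Fin 5 => fun i => p (i + k)) ∪
      {(fun _ => false), (fun _ => true)}).card := by
  decide +kernel

theorem wt_cases : ∀ p : Fin 5 → Bool, (∃ i j, p i ≠ p j) ∨ p = (fun _ => false) ∨
    p = (fun _ => true) := by
  decide +kernel

theorem wt_not : ∀ p : Fin 5 → Bool, wt p = 4 → wt (fun i => !(p i)) = 1 := by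
  decide +kernel

section

variable {Ω : Type u} {G : Subgroup (Equiv.Perm Ω)}

/-- the two classes of 4-tuples -/
theorem two_classes (h4 : F G 4 = 2) : ∃ u v : Fin 4 → Ω, Function.Injective u ∧
    Function.Injective v ∧ ¬ SameOrbit G u v ∧
    ∀ w, Function.Injective w → SameOrbit G w u ∨ SameOrbit G w v := by
  unfold F at h4
  obtain ⟨q, q', hne, huniv⟩ := Nat.card_eq_two_iff.1 h4
  refine ⟨q.out.1, q'.out.1, q.out.2, q'.out.2, ?_, ?_⟩
  · intro h
    have h2 := (mk_eq_iff (a := q.out) (b := q'.out)).2 h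
    rw [Quotient.out_eq, Quotient.out_eq] at h2
    exact hne h2
  · intro w hw
    have h1 : Quotient.mk (distinctTupleOrbits G 4) ⟨w, hw⟩ ∈ ({q, q'} : Set _) := by
      rw [huniv]; exact Set.mem_univ _
    rcases h1 with h1 | h1
    · left
      apply (mk_eq_iff (G := G) (a := ⟨w, hw⟩) (b := q.out)).1
      rw [Quotient.out_eq]; exact h1
    · right
      apply (mk_eq_iff (G := G) (a := ⟨w, hw⟩) (b := q'.out)).1
      rw [Quotient.out_eq]; exact h1

theorem SameOrbit.perm_iff {n : ℕ} {w w' : Fin n → Ω} (τ : Equiv.Perm (Fin n)) :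
    SameOrbit G (w ∘ τ) (w' ∘ τ) ↔ SameOrbit G w w' := by
  constructor
  · intro h
    have := h.comp (τ⁻¹ : Equiv.Perm (Fin n))
    simpa [Function.comp_assoc, Function.comp_def] using this
  · exact fun h => h.comp τ

/-- the action of permutations of the coordinates on the two classes -/
theorem class_perm {u v : Fin 4 → Ω} (hu : Function.Injective u)
    (huv : ¬ SameOrbit G u v)
    (hall : ∀ w, Function.Injective w → SameOrbit G w u ∨ SameOrbit G w v)
    {w : Fin 4 → Ω} (hw : Function.Injective w) (τ : Equiv.Perm (Fin 4)) :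
    SameOrbit G (w ∘ τ) u ↔ (SameOrbit G w u ↔ SameOrbit G (u ∘ τ) u) := by
  have hcase : ∀ w, Function.Injective w → (¬ SameOrbit G w u ↔ SameOrbit G w v) := by
    intro w hw
    constructor
    · exact fun h => (hall w hw).resolve_left h
    · exact fun h h' => huv (h'.symm.trans h)
  by_cases h1 : SameOrbit G w u
  · have h2 : SameOrbit G (w ∘ τ) (u ∘ τ) := h1.comp τ
    simp only [h1, true_iff]
    exact ⟨fun h => h2.symm.trans h, fun h => h2.trans h⟩
  · have h1' := (hcase w hw).1 h1
    have h2 : SameOrbit G (w ∘ τ) (v ∘ τ) := h1'.comp τ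
    simp only [h1, false_iff]
    rw [hcase _ (hu.comp τ.injective)]
    constructor
    · intro h
      by_contra h3
      have h4 := (hall (u ∘ τ) (hu.comp τ.injective)).resolve_right h3
      have h5 : SameOrbit G (u ∘ τ) (v ∘ τ) := h4.trans (h.symm.trans h2)
      exact huv ((SameOrbit.perm_iff τ).1 h5)
    · intro h
      by_contra h3
      have h4 : SameOrbit G (w ∘ τ) v := (hcase _ (hw.comp τ.injective)).1 h3
      have h5 : SameOrbit G (u ∘ τ) (v ∘ τ) := h.trans (h4.symm.trans h2)
      exact huv ((SameOrbit.perm_iff τ).1 h5)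

/-- either all permutations of the coordinates fix the two classes, or precisely the even ones -/
theorem class_dichotomy (h4 : F G 4 = 2) : ∃ (u v : Fin 4 → Ω) (b : Bool),
    Function.Injective u ∧ Function.Injective v ∧ ¬ SameOrbit G u v ∧
    (∀ w, Function.Injective w → SameOrbit G w u ∨ SameOrbit G w v) ∧
    (∀ w, Function.Injective w → ∀ τ : Equiv.Perm (Fin 4), Equiv.Perm.sign τ = -1 →
      (SameOrbit G (w ∘ τ) u ↔ (SameOrbit G w u ↔ b = true))) ∧
    (b = true → ∀ w, Function.Injective w → ∀ τ : Equiv.Perm (Fin 4),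
      (SameOrbit G (w ∘ τ) u ↔ SameOrbit G w u)) := by
  classical
  obtain ⟨u, v, hu, hv, huv, hall⟩ := two_classes h4
  have hperm := fun {w : Fin 4 → Ω} (hw : Function.Injective w) (τ : Equiv.Perm (Fin 4)) =>
    class_perm hu huv hall hw τ
  let s : Equiv.Perm (Fin 4) →* ℤˣ :=
    { toFun := fun τ => if SameOrbit G (u ∘ τ) u then 1 else -1
      map_one' := by
        rw [if_pos]
        exact SameOrbit.refl u
      map_mul' := by
        intro σ τ
        have h1 : u ∘ (σ * τ : Equiv.Perm (Fin 4)) = (u ∘ σ) ∘ τ := rfl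
        have h2 := hperm (hu.comp σ.injective) τ
        rw [h1]
        by_cases h3 : SameOrbit G (u ∘ σ) u <;> by_cases h4 : SameOrbit G (u ∘ τ) u
        · rw [if_pos (h2.2 (by tauto)), if_pos h3, if_pos h4, one_mul]
        · rw [if_neg (fun h => h4 ((h2.1 h).1 h3)), if_pos h3, if_neg h4, one_mul]
        · rw [if_neg (fun h => h3 ((h2.1 h).2 h4)), if_neg h3, if_pos h4, mul_one]
        · rw [if_pos (h2.2 (by tauto)), if_neg h3, if_neg h4]
          decide }
  by_cases hs : Function.Surjective s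
  · have h1 := Equiv.Perm.eq_sign_of_surjective_hom hs
    refine ⟨u, v, false, hu, hv, huv, hall, fun w hw τ hτ => ?_, fun h => absurd h (by simp)⟩
    rw [hperm hw τ]
    have h2 : s τ = -1 := by rw [h1, hτ]
    have h3 : ¬ SameOrbit G (u ∘ τ) u := by
      intro h
      have h4 : s τ = 1 := if_pos h
      rw [h4] at h2
      exact absurd h2 (by decide)
    simp [h3]
  · have h1 : ∀ τ : Equiv.Perm (Fin 4), SameOrbit G (u ∘ τ) u := by
      intro τ
      by_contra hτ
      apply hs
      intro z
      rcases Int.units_eq_one_or z with h | h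
      · exact ⟨1, by rw [map_one, h]⟩
      · exact ⟨τ, by rw [h]; exact if_neg hτ⟩
    refine ⟨u, v, true, hu, hv, huv, hall, fun w hw τ _ => ?_, fun _ w hw τ => ?_⟩
    · rw [hperm hw τ]
      simp [h1 τ]
    · rw [hperm hw τ]
      simp [h1 τ]

end

end Pool.Agent.Lib.MP_3f2714_al
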