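import Mathlib
import Pool.Agent.Lib.MP_3f2714_al.Pattern
import Pool.Agent.Lib.MP_3f2714_al.Boolean

namespace Pool.Agent.Lib.MP_3f2714_al

set_option linter.unusedSectionVars false

universe u

section

variable {Ω : Type u}

open Classical in
/-- the pattern of a 5-tuple with respect to a 2-colouring of the 4-tuples -/
noncomputable def Pat (P : (Fin 4 → Ω) → Prop) (t : Fin 5 → Ω) : Fin 5 → Bool :=
  fun i => decide (P (t ∘ cyc i))

theorem pat_eq_iff {P : (Fin 4 → Ω) → Prop} {t : Fin 5 → Ω} {i : Fin 5} :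
    Pat P t i = true ↔ P (t ∘ cyc i) := by
  simp [Pat]

theorem cyc_add : ∀ i k : Fin 5, ∀ j : Fin 4, cyc i j + k = cyc (i + k) j := by decide

theorem pat_rot (P : (Fin 4 → Ω) → Prop) (t : Fin 5 → Ω) (k : Fin 5) :
    Pat P (fun i => t (i + k)) = fun i => Pat P t (i + k) := by
  funext i
  rw [Bool.eq_iff_iff, pat_eq_iff, pat_eq_iff]
  have : (fun i => t (i + k)) ∘ cyc i = t ∘ cyc (i + k) := by
    funext j
    simp only [Function.comp_apply, cyc_add]
  rw [this]

theorem rot_injective (k : Fin 5) : Function.Injective (fun i : Fin 5 => i + k) := by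
  revert k
  decide

variable {G : Subgroup (Equiv.Perm Ω)}

theorem pat_of_sameOrbit {P : (Fin 4 → Ω) → Prop}
    (hP : ∀ w w' : Fin 4 → Ω, SameOrbit G w w' → (P w ↔ P w')) {t t' : Fin 5 → Ω}
    (h : SameOrbit G t t') : Pat P t = Pat P t' := by
  funext i
  rw [Bool.eq_iff_iff, pat_eq_iff, pat_eq_iff]
  exact hP _ _ (h.comp _)

theorem card_real {P : (Fin 4 → Ω) → Prop}
    (hP : ∀ w w' : Fin 4 → Ω, SameOrbit G w w' → (P w ↔ P w')) (hF : F G 5 ≠ 0)
    (S : Finset (Fin 5 → Bool)) (hS : ∀ p ∈ S, ∃ t : Fin 5 → Ω, Function.Injective t ∧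
      Pat P t = p) : S.card ≤ F G 5 := by
  choose t ht1 ht2 using hS
  have := card_le_F (G := G) (n := 5) (ι := S) hF (fun p => t p.1 p.2)
    (fun p => ht1 p.1 p.2)
    (fun p q hpq => by
      have h1 := pat_of_sameOrbit hP hpq
      rw [ht2 p.1 p.2, ht2 q.1 q.2] at h1
      exact Subtype.ext h1)
  simpa using this

/-- a symmetric colouring of the 4-tuples, whose colour classes are the two orbits -/
structure GoodCol (G : Subgroup (Equiv.Perm Ω)) (P : (Fin 4 → Ω) → Prop) : Prop where
  inv : ∀ w w' : Fin 4 → Ω, SameOrbit G w w' → (P w ↔ P w')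
  sep : ∀ w w' : Fin 4 → Ω, Function.Injective w → Function.Injective w' → (P w ↔ P w') →
    SameOrbit G w w'
  symm : ∀ w : Fin 4 → Ω, Function.Injective w → ∀ τ : Equiv.Perm (Fin 4), (P (w ∘ τ) ↔ P w)
  exT : ∃ w : Fin 4 → Ω, Function.Injective w ∧ P w
  exF : ∃ w : Fin 4 → Ω, Function.Injective w ∧ ¬ P w
  one : ∃ t : Fin 5 → Ω, Function.Injective t ∧ wt (Pat P t) = 1

/-- the rotation of four coordinates -/
def rot4 : Equiv.Perm (Fin 4) := (finRotate 4)⁻¹

theorem sign_rot4 : Equiv.Perm.sign rot4 = -1 := by decide +kernel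

theorem cyc_four (a b c d e : Ω) : ![a, b, c, d, e] ∘ cyc 4 = ![a, b, c, d] := by
  funext j
  fin_cases j <;> rfl

theorem cyc_three (a b c d e : Ω) : ![a, b, c, d, e] ∘ cyc 3 = ![a, b, c, e] ∘ rot4 := by
  funext j
  fin_cases j <;> rfl

theorem inj_five {a b c d e : Ω} (h1 : Function.Injective ![a, b, c, d])
    (h2 : Function.Injective ![a, b, c, e]) (h3 : d ≠ e) :
    Function.Injective ![a, b, c, d, e] := by
  have e1 : a ≠ b := fun h => absurd (@h1 0 1 h) (by decide)
  have e2 : a ≠ c := fun h => absurd (@h1 0 2 h) (by decide)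
  have e3 : a ≠ d := fun h => absurd (@h1 0 3 h) (by decide)
  have e4 : b ≠ c := fun h => absurd (@h1 1 2 h) (by decide)
  have e5 : b ≠ d := fun h => absurd (@h1 1 3 h) (by decide)
  have e6 : c ≠ d := fun h => absurd (@h1 2 3 h) (by decide)
  have e7 : a ≠ e := fun h => absurd (@h2 0 3 h) (by decide)
  have e8 : b ≠ e := fun h => absurd (@h2 1 3 h) (by decide)
  have e9 : c ≠ e := fun h => absurd (@h2 2 3 h) (by decide)
  intro i j
  fin_cases i <;> fin_cases j <;> simp [e1, e2, e3, e4, e5, e6, e7, e8, e9, h3, e1.symm, e2.symm,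
    e3.symm, e4.symm, e5.symm, e6.symm, e7.symm, e8.symm, e9.symm, h3.symm]

theorem vec4_eta (w : Fin 4 → Ω) : ![w 0, w 1, w 2, w 3] = w := by
  funext j
  fin_cases j <;> rfl

theorem exists_goodCol [Infinite Ω] (h3 : F G 3 = 1) (h4 : F G 4 = 2) (h5 : F G 5 ≤ 6)
    (h5' : F G 5 ≠ 0) : ∃ P : (Fin 4 → Ω) → Prop, GoodCol G P := by
  classical
  obtain ⟨u, v, b, hu, hv, huv, hall, hodd, heven⟩ := class_dichotomy h4
  let R : (Fin 4 → Ω) → Prop := fun w => SameOrbit G w u
  have hRinv : ∀ w w' : Fin 4 → Ω, SameOrbit G w w' → (R w ↔ R w') :=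
    fun w w' h => ⟨fun h' => h.symm.trans h', fun h' => h.trans h'⟩
  have hRsep : ∀ w w' : Fin 4 → Ω, Function.Injective w → Function.Injective w' →
      (R w ↔ R w') → SameOrbit G w w' := by
    intro w w' hw hw' h
    rcases hall w hw with h1 | h1
    · exact h1.trans (h.1 h1).symm
    · rcases hall w' hw' with h2 | h2
      · exact (h.2 h2).trans h2.symm
      · exact h1.trans h2.symm
  -- a mixed pattern
  have hmixed : ∃ t : Fin 5 → Ω, Function.Injective t ∧ Pat R t 4 ≠ Pat R t 3 := by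
    by_cases hb : b = true
    · -- move `v`
      have hu3 : Function.Injective (u ∘ Fin.castSucc) := hu.comp (Fin.castSucc_injective 3)
      have hv3 : Function.Injective (v ∘ Fin.castSucc) := hv.comp (Fin.castSucc_injective 3)
      obtain ⟨g, hg, h⟩ := sameOrbit_of_F_eq_one h3 hv3 hu3
      have e0 : g (v 0) = u 0 := h 0
      have e1 : g (v 1) = u 1 := h 1
      have e2 : g (v 2) = u 2 := h 2
      have hgv : SameOrbit G v ![u 0, u 1, u 2, g (v 3)] := by
        refine ⟨g, hg, fun i => ?_⟩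
        fin_cases i
        · exact e0
        · exact e1
        · exact e2
        · rfl
      have hgvinj : Function.Injective ![u 0, u 1, u 2, g (v 3)] := by
        have : ![u 0, u 1, u 2, g (v 3)] = g ∘ v := by
          funext i
          fin_cases i
          · exact e0.symm
          · exact e1.symm
          · exact e2.symm
          · rfl
        rw [this]
        exact g.injective.comp hv
      have hne : u 3 ≠ g (v 3) := by
        intro h
        apply huv
        rw [← h, vec4_eta] at hgv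
        exact hgv.symm
      have hinj := inj_five (a := u 0) (b := u 1) (c := u 2) (d := u 3) (e := g (v 3))
        (by rw [vec4_eta]; exact hu) hgvinj hne
      refine ⟨_, hinj, ?_⟩
      rw [Ne, Bool.eq_iff_iff, pat_eq_iff, pat_eq_iff, cyc_four, cyc_three]
      have h6 : R ![u 0, u 1, u 2, u 3] := by
        show SameOrbit G _ u
        rw [vec4_eta]; exact SameOrbit.refl u
      have h7 : ¬ R ![u 0, u 1, u 2, g (v 3)] := fun h => huv ((hgv.trans h).symm)
      have h8 : R (![u 0, u 1, u 2, g (v 3)] ∘ rot4) ↔ R ![u 0, u 1, u 2, g (v 3)] :=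
        heven hb _ hgvinj rot4
      rw [h8]
      exact fun h => h7 (h.1 h6)
    · -- pigeonhole
      let f : ℕ ↪ Ω := Infinite.natEmbedding Ω
      have hinj4 : ∀ i : ℕ, 3 ≤ i → Function.Injective ![f 0, f 1, f 2, f i] := by
        intro i hi j k
        fin_cases j <;> fin_cases k <;> simp <;> omega
      have key : ∀ i j : ℕ, 3 ≤ i → 3 ≤ j → i ≠ j →
          (R ![f 0, f 1, f 2, f i] ↔ R ![f 0, f 1, f 2, f j]) →
          ∃ t : Fin 5 → Ω, Function.Injective t ∧ Pat R t 4 ≠ Pat R t 3 := by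
        intro i j hi hj hij h
        refine ⟨_, inj_five (hinj4 i hi) (hinj4 j hj) (fun h => hij (f.injective h)), ?_⟩
        rw [Ne, Bool.eq_iff_iff, pat_eq_iff, pat_eq_iff, cyc_four, cyc_three]
        have h8 := hodd _ (hinj4 j hj) rot4 sign_rot4
        have h9 : R (![f 0, f 1, f 2, f j] ∘ rot4) ↔ (R ![f 0, f 1, f 2, f j] ↔ b = true) := h8
        rw [h9, h]
        simp only [hb]
        tauto
      by_cases a1 : R ![f 0, f 1, f 2, f 3] <;> by_cases a2 : R ![f 0, f 1, f 2, f 4] <;>
        by_cases a3 : R ![f 0, f 1, f 2, f 5]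
      · exact key 3 4 (by omega) (by omega) (by omega) (by tauto)
      · exact key 3 4 (by omega) (by omega) (by omega) (by tauto)
      · exact key 3 5 (by omega) (by omega) (by omega) (by tauto)
      · exact key 4 5 (by omega) (by omega) (by omega) (by tauto)
      · exact key 4 5 (by omega) (by omega) (by omega) (by tauto)
      · exact key 3 5 (by omega) (by omega) (by omega) (by tauto)
      · exact key 3 4 (by omega) (by omega) (by omega) (by tauto)
      · exact key 3 4 (by omega) (by omega) (by omega) (by tauto)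
  obtain ⟨t, ht, hmix⟩ := hmixed
  -- closure of the set of patterns
  have hsw : ∀ t : Fin 5 → Ω, Function.Injective t →
      Pat R (t ∘ sw) = fun i => (Pat R t (sw i) == b) := by
    intro t ht
    funext i
    obtain ⟨τ, hτ, h⟩ := sw_cyc i
    have h1 : (t ∘ sw) ∘ cyc i = (t ∘ cyc (sw i)) ∘ τ := by
      funext j
      simp only [Function.comp_apply, h]
    rw [Bool.eq_iff_iff, pat_eq_iff, h1, beq_iff_eq, Bool.eq_iff_iff, pat_eq_iff]
    exact hodd _ (ht.comp (cyc_injective _)) τ hτ
  have hmain := pat_decide b (Pat R t) ⟨4, 3, hmix⟩ ((card_real hRinv h5' _ (by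
    intro p hp
    rcases Finset.mem_union.1 hp with hp | hp
    · obtain ⟨k, _, rfl⟩ := Finset.mem_image.1 hp
      exact ⟨fun i => t (i + k), ht.comp (rot_injective k), pat_rot R t k⟩
    · obtain ⟨⟨k, l⟩, _, rfl⟩ := Finset.mem_image.1 hp
      have hinj1 : Function.Injective (fun i => t (i + l)) := ht.comp (rot_injective l)
      have hinj2 : Function.Injective ((fun i => t (i + l)) ∘ sw) := hinj1.comp sw.injective
      refine ⟨fun i => ((fun i => t (i + l)) ∘ sw) (i + k), hinj2.comp (rot_injective k), ?_⟩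
      rw [pat_rot, hsw _ hinj1, pat_rot])).trans h5)
  obtain ⟨hb, hwt⟩ := hmain
  have hsymm := heven hb
  rcases hwt with hwt | hwt
  · exact ⟨R, hRinv, hRsep, hsymm, ⟨u, hu, SameOrbit.refl u⟩,
      ⟨v, hv, fun h => huv h.symm⟩, ⟨t, ht, hwt⟩⟩
  · refine ⟨fun w => ¬ R w, fun w w' h => not_congr (hRinv w w' h),
      fun w w' hw hw' h => hRsep w w' hw hw' (not_iff_not.1 h),
      fun w hw τ => not_congr (hsymm w hw τ),
      ⟨v, hv, fun h => huv h.symm⟩, ⟨u, hu, fun h => h (SameOrbit.refl u)⟩, ⟨t, ht, ?_⟩⟩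
    have : Pat (fun w => ¬ R w) t = fun i => !(Pat R t i) := by
      funext i
      simp [Pat]
    rw [this]
    exact wt_not _ hwt

end

end Pool.Agent.Lib.MP_3f2714_al
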