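import Mathlib
import Pool.Agent.Lib.MP_3f2714_al.Recog

namespace Pool.Agent.Lib.MP_3f2714_al

set_option linter.unusedSectionVars false

universe u

theorem wt_one_iff : ∀ p : Fin 5 → Bool, wt p = 1 → ∃ i, p = fun j => decide (j = i) := by
  decide +kernel

section

variable {Ω : Type u} {G : Subgroup (Equiv.Perm Ω)} {P : (Fin 4 → Ω) → Prop}

theorem GoodCol.weights (hP : GoodCol G P) (h5 : F G 5 ≤ 6) (h5' : F G 5 ≠ 0)
    {t : Fin 5 → Ω} (ht : Function.Injective t) :
    wt (Pat P t) = 1 ∨ Pat P t = (fun _ => false) ∨ Pat P t = (fun _ => true) := by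
  classical
  rcases wt_cases (Pat P t) with h | h
  · left
    have hsw : ∀ t : Fin 5 → Ω, Function.Injective t →
        Pat P (t ∘ sw) = fun i => (Pat P t (sw i) == true) := by
      intro t ht
      funext i
      obtain ⟨τ, _, h⟩ := sw_cyc i
      have h1 : (t ∘ sw) ∘ cyc i = (t ∘ cyc (sw i)) ∘ τ := by
        funext j
        simp only [Function.comp_apply, h]
      rw [Bool.eq_iff_iff, pat_eq_iff, h1, beq_iff_eq, Bool.eq_iff_iff, pat_eq_iff]
      rw [hP.symm _ (ht.comp (cyc_injective _)) τ]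
      simp
    have hmain := pat_decide true (Pat P t) h ((card_real hP.inv h5' _ (by
      intro p hp
      rcases Finset.mem_union.1 hp with hp | hp
      · obtain ⟨k, _, rfl⟩ := Finset.mem_image.1 hp
        exact ⟨fun i => t (i + k), ht.comp (rot_injective k), pat_rot P t k⟩
      · obtain ⟨⟨k, l⟩, _, rfl⟩ := Finset.mem_image.1 hp
        have hinj1 : Function.Injective (fun i => t (i + l)) := ht.comp (rot_injective l)
        have hinj2 : Function.Injective ((fun i => t (i + l)) ∘ sw) := hinj1.comp sw.injective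
        refine ⟨fun i => ((fun i => t (i + l)) ∘ sw) (i + k), hinj2.comp (rot_injective k), ?_⟩
        rw [pat_rot, hsw _ hinj1, pat_rot])).trans h5)
    rcases hmain.2 with h1 | h1
    · exact h1
    · exfalso
      obtain ⟨t1, ht1, hw1⟩ := hP.one
      have h2 := pat_decide2 _ _ hw1 h1
      have h3 := card_real hP.inv h5' (Finset.univ.image
        (fun k : Fin 5 => fun i => Pat P t1 (i + k)) ∪
        Finset.univ.image (fun k : Fin 5 => fun i => Pat P t (i + k))) (by
        intro p hp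
        rcases Finset.mem_union.1 hp with hp | hp
        · obtain ⟨k, _, rfl⟩ := Finset.mem_image.1 hp
          exact ⟨fun i => t1 (i + k), ht1.comp (rot_injective k), pat_rot P t1 k⟩
        · obtain ⟨k, _, rfl⟩ := Finset.mem_image.1 hp
          exact ⟨fun i => t (i + k), ht.comp (rot_injective k), pat_rot P t k⟩)
      omega
  · exact Or.inr h

theorem GoodCol.not_both (hP : GoodCol G P) (h5 : F G 5 ≤ 6) (h5' : F G 5 ≠ 0)
    {t s : Fin 5 → Ω} (ht : Function.Injective t) (hs : Function.Injective s)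
    (h1 : Pat P t = (fun _ => false)) (h2 : Pat P s = (fun _ => true)) : False := by
  classical
  obtain ⟨t1, ht1, hw1⟩ := hP.one
  have h3 := pat_decide3 _ hw1
  have h4 := card_real hP.inv h5' (Finset.univ.image
    (fun k : Fin 5 => fun i => Pat P t1 (i + k)) ∪ {(fun _ => false), (fun _ => true)}) (by
      intro p hp
      rcases Finset.mem_union.1 hp with hp | hp
      · obtain ⟨k, _, rfl⟩ := Finset.mem_image.1 hp
        exact ⟨fun i => t1 (i + k), ht1.comp (rot_injective k), pat_rot P t1 k⟩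
      · rcases Finset.mem_insert.1 hp with hp | hp
        · exact ⟨t, ht, h1.trans hp.symm⟩
        · exact ⟨s, hs, h2.trans (Finset.mem_singleton.1 hp).symm⟩)
  omega

/-- swap of coordinates -/
theorem GoodCol.p01 (hP : GoodCol G P) {a b c d : Ω} (h : Function.Injective ![a, b, c, d]) :
    P ![b, a, c, d] ↔ P ![a, b, c, d] := by
  have := hP.symm _ h (Equiv.swap 0 1)
  have e : ![a, b, c, d] ∘ (Equiv.swap 0 1 : Equiv.Perm (Fin 4)) = ![b, a, c, d] := by
    funext j
    fin_cases j <;> rfl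
  rwa [e] at this

theorem GoodCol.p12 (hP : GoodCol G P) {a b c d : Ω} (h : Function.Injective ![a, b, c, d]) :
    P ![a, c, b, d] ↔ P ![a, b, c, d] := by
  have := hP.symm _ h (Equiv.swap 1 2)
  have e : ![a, b, c, d] ∘ (Equiv.swap 1 2 : Equiv.Perm (Fin 4)) = ![a, c, b, d] := by
    funext j
    fin_cases j <;> rfl
  rwa [e] at this

theorem GoodCol.p23 (hP : GoodCol G P) {a b c d : Ω} (h : Function.Injective ![a, b, c, d]) :
    P ![a, b, d, c] ↔ P ![a, b, c, d] := by
  have := hP.symm _ h (Equiv.swap 2 3)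
  have e : ![a, b, c, d] ∘ (Equiv.swap 2 3 : Equiv.Perm (Fin 4)) = ![a, b, d, c] := by
    funext j
    fin_cases j <;> rfl
  rwa [e] at this

theorem GoodCol.vals (hP : GoodCol G P) {t : Fin 5 → Ω} (ht : Function.Injective t) :
    (Pat P t 4 = true ↔ P ![t 0, t 1, t 2, t 3]) ∧
    (Pat P t 3 = true ↔ P ![t 0, t 1, t 2, t 4]) ∧
    (Pat P t 2 = true ↔ P ![t 0, t 1, t 3, t 4]) ∧
    (Pat P t 1 = true ↔ P ![t 0, t 2, t 3, t 4]) ∧
    (Pat P t 0 = true ↔ P ![t 1, t 2, t 3, t 4]) := by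
  have hinj : ∀ s : Fin 4 → Fin 5, Function.Injective s → Function.Injective (t ∘ s) :=
    fun s hs => ht.comp hs
  have e4 : ![t 0, t 1, t 2, t 3] = t ∘ ![0, 1, 2, 3] := by
    funext j; fin_cases j <;> rfl
  have e3 : ![t 0, t 1, t 2, t 4] = t ∘ ![0, 1, 2, 4] := by
    funext j; fin_cases j <;> rfl
  have e2 : ![t 0, t 1, t 3, t 4] = t ∘ ![0, 1, 3, 4] := by
    funext j; fin_cases j <;> rfl
  have e1 : ![t 0, t 2, t 3, t 4] = t ∘ ![0, 2, 3, 4] := by
    funext j; fin_cases j <;> rfl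
  have e0 : ![t 1, t 2, t 3, t 4] = t ∘ ![1, 2, 3, 4] := by
    funext j; fin_cases j <;> rfl
  have d4 : t ∘ cyc 4 = t ∘ ![0, 1, 2, 3] := by
    funext j; fin_cases j <;> rfl
  have d3 : t ∘ cyc 3 = (t ∘ ![0, 1, 2, 4]) ∘ rot4 := by
    funext j; fin_cases j <;> rfl
  have d2 : t ∘ cyc 2 = (t ∘ ![0, 1, 3, 4]) ∘ ((rot4 * rot4 : Equiv.Perm (Fin 4))) := by
    funext j; fin_cases j <;> rfl
  have d1 : t ∘ cyc 1 = (t ∘ ![0, 2, 3, 4]) ∘ ((rot4 * rot4 * rot4 : Equiv.Perm (Fin 4))) := by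
    funext j; fin_cases j <;> rfl
  have d0 : t ∘ cyc 0 = t ∘ ![1, 2, 3, 4] := by
    funext j; fin_cases j <;> rfl
  refine ⟨?_, ?_, ?_, ?_, ?_⟩
  · rw [pat_eq_iff, e4, d4]
  · rw [pat_eq_iff, e3, d3]
    exact hP.symm _ (hinj _ (by decide)) _
  · rw [pat_eq_iff, e2, d2]
    exact hP.symm _ (hinj _ (by decide)) _
  · rw [pat_eq_iff, e1, d1]
    exact hP.symm _ (hinj _ (by decide)) _
  · rw [pat_eq_iff, e0, d0]

/-- all or exactly one -/
def Five (A B C D E : Prop) : Prop :=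
  (A ∧ B ∧ C ∧ D ∧ E) ∨ (A ∧ ¬ B ∧ ¬ C ∧ ¬ D ∧ ¬ E) ∨ (¬ A ∧ B ∧ ¬ C ∧ ¬ D ∧ ¬ E) ∨
    (¬ A ∧ ¬ B ∧ C ∧ ¬ D ∧ ¬ E) ∨ (¬ A ∧ ¬ B ∧ ¬ C ∧ D ∧ ¬ E) ∨ (¬ A ∧ ¬ B ∧ ¬ C ∧ ¬ D ∧ E)

theorem five_l1 {A B C D E : Prop} (h : Five A B C D E) (hA : ¬ A) (hB : B) :
    ¬ C ∧ ¬ D ∧ ¬ E := by
  unfold Five at h; tauto

theorem five_l2 {A B C D E : Prop} (h : Five A B C D E) (hA : ¬ A) (hD : D) :
    ¬ B ∧ ¬ C ∧ ¬ E := by
  unfold Five at h; tauto

theorem five_l3 {A B C D E : Prop} (h : Five A B C D E) (hA : A) (hB : ¬ B) :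
    ¬ C ∧ ¬ D ∧ ¬ E := by
  unfold Five at h; tauto

theorem five_l4 {A B C D E : Prop} (h : Five A B C D E) (hA : ¬ A) (hB : ¬ B) (hC : ¬ C)
    (hD : ¬ D) : E := by
  unfold Five at h; tauto

theorem five_l5 {A B C D E : Prop} (h : Five A B C D E) (hA : A) (hB : B) :
    C ∧ D ∧ E := by
  unfold Five at h; tauto

theorem five_l6 {A B C D E : Prop} (h : Five A B C D E) (hA : ¬ A) (hC : C) (hE : E) :
    False := by
  unfold Five at h; tauto

/-- all or exactly one, if no 5-tuple is free of blocks -/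
theorem GoodCol.rule (hP : GoodCol G P) (hw : ∀ t : Fin 5 → Ω, Function.Injective t →
    wt (Pat P t) = 1 ∨ Pat P t = (fun _ => true)) {t : Fin 5 → Ω} (ht : Function.Injective t) :
    Five (P ![t 0, t 1, t 2, t 3]) (P ![t 0, t 1, t 2, t 4]) (P ![t 0, t 1, t 3, t 4])
      (P ![t 0, t 2, t 3, t 4]) (P ![t 1, t 2, t 3, t 4]) := by
  obtain ⟨v4, v3, v2, v1, v0⟩ := hP.vals ht
  unfold Five
  rw [← v4, ← v3, ← v2, ← v1, ← v0]
  rcases hw t ht with h | h
  · obtain ⟨i, hi⟩ := wt_one_iff _ h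
    rw [hi]
    clear hi
    revert i
    decide
  · rw [h]
    decide

/-- there is no complete 5-tuple -/
theorem GoodCol.no_complete (hP : GoodCol G P) (h3 : F G 3 = 1) (h5 : F G 5 ≤ 6)
    (h5' : F G 5 ≠ 0) {t : Fin 5 → Ω} (ht : Function.Injective t)
    (hcomp : Pat P t = (fun _ => true)) : False := by
  have hw : ∀ s : Fin 5 → Ω, Function.Injective s →
      wt (Pat P s) = 1 ∨ Pat P s = (fun _ => true) := by
    intro s hs
    rcases hP.weights h5 h5' hs with h | h | h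
    · exact Or.inl h
    · exact (hP.not_both h5 h5' hs ht h hcomp).elim
    · exact Or.inr h
  -- a mixed 5-tuple with P(abce), not P(abcd)
  obtain ⟨s0, hs0, hs1⟩ := hP.one
  obtain ⟨i, hi⟩ := wt_one_iff _ hs1
  obtain ⟨s, hs, hs2⟩ : ∃ s : Fin 5 → Ω, Function.Injective s ∧
      Pat P s = fun j => decide (j = 3) := by
    refine ⟨fun j => s0 (j + (i + 2)), hs0.comp (rot_injective _), ?_⟩
    rw [pat_rot, hi]
    revert i
    intro i _
    have : ∀ i j : Fin 5, decide (j + (i + 2) = i) = decide (j = 3) := by decide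
    funext j
    exact this i j
  obtain ⟨v4, v3, v2, v1, v0⟩ := hP.vals hs
  rw [hs2] at v4 v3 v2 v1 v0
  have w4 : ¬ P ![s 0, s 1, s 2, s 3] := fun h => absurd (v4.2 h) (by decide)
  have w3 : P ![s 0, s 1, s 2, s 4] := v3.1 (by decide)
  have w1 : ¬ P ![s 0, s 2, s 3, s 4] := fun h => absurd (v1.2 h) (by decide)
  -- two points x, y with P(acdx), P(acdy)
  obtain ⟨g, hg, h⟩ := sameOrbit_of_F_eq_one h3
    (a := t ∘ ![0, 1, 2]) (b := s ∘ ![0, 2, 3]) (ht.comp (by decide)) (hs.comp (by decide))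
  have g0 : g (t 0) = s 0 := h 0
  have g1 : g (t 1) = s 2 := h 1
  have g2 : g (t 2) = s 3 := h 2
  obtain ⟨u4, u3, _, _, _⟩ := hP.vals ht
  rw [hcomp] at u4 u3
  have u4' : P ![t 0, t 1, t 2, t 3] := u4.1 rfl
  have u3' : P ![t 0, t 1, t 2, t 4] := u3.1 rfl
  have hx : P ![s 0, s 2, s 3, g (t 3)] := by
    refine (hP.inv _ _ ⟨g, hg, fun i => ?_⟩).1 u4'
    fin_cases i
    · exact g0
    · exact g1
    · exact g2
    · rfl
  have hy : P ![s 0, s 2, s 3, g (t 4)] := by
    refine (hP.inv _ _ ⟨g, hg, fun i => ?_⟩).1 u3'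
    fin_cases i
    · exact g0
    · exact g1
    · exact g2
    · rfl
  have ne : ∀ i j : Fin 5, i ≠ j → t i ≠ t j := fun i j hij h => hij (ht h)
  have nes : ∀ i j : Fin 5, i ≠ j → s i ≠ s j := fun i j hij h => hij (hs h)
  have hinjb : Function.Injective ![s 0, s 1, s 2, s 3] := by
    have : ![s 0, s 1, s 2, s 3] = s ∘ ![0, 1, 2, 3] := by funext j; fin_cases j <;> rfl
    rw [this]; exact hs.comp (by decide)
  have hinjb2 : Function.Injective ![s 0, s 2, s 1, s 3] := by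
    have : ![s 0, s 2, s 1, s 3] = s ∘ ![0, 2, 1, 3] := by funext j; fin_cases j <;> rfl
    rw [this]; exact hs.comp (by decide)
  have hxs : ∀ k : Fin 5, (k = 3 ∨ k = 4) → P ![s 0, s 2, s 3, g (t k)] →
      ∀ i : Fin 5, s i ≠ g (t k) := by
    intro k hk hPk i hi
    have hk0 : k ≠ 0 := by rcases hk with rfl | rfl <;> decide
    have hk1 : k ≠ 1 := by rcases hk with rfl | rfl <;> decide
    have hk2 : k ≠ 2 := by rcases hk with rfl | rfl <;> decide
    fin_cases i
    · change s 0 = _ at hi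
      rw [← g0] at hi
      exact hk0 (ht (g.injective hi)).symm
    · change s 1 = _ at hi
      rw [← hi] at hPk
      have e1 := hP.p23 hinjb2
      have e2 := hP.p12 hinjb
      exact w4 (e2.1 (e1.1 hPk))
    · change s 2 = _ at hi
      rw [← g1] at hi
      exact hk1 (ht (g.injective hi)).symm
    · change s 3 = _ at hi
      rw [← g2] at hi
      exact hk2 (ht (g.injective hi)).symm
    · change s 4 = _ at hi
      rw [← hi] at hPk
      exact w1 hPk
  let f : Fin 7 → Ω := ![s 0, s 1, s 2, s 3, s 4, g (t 3), g (t 4)]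
  have hf : Function.Injective f := by
    have x0 := hxs 3 (Or.inl rfl) hx
    have y0 := hxs 4 (Or.inr rfl) hy
    have xy : g (t 3) ≠ g (t 4) := fun h => absurd (ht (g.injective h)) (by decide)
    have key : ∀ i j : Fin 7, i < j → f i ≠ f j := by
      intro i j hij
      fin_cases i <;> fin_cases j <;> first
        | exact absurd hij (by decide)
        | exact nes _ _ (by decide)
        | exact x0 _
        | exact y0 _
        | exact xy
    intro i j hij
    rcases lt_trichotomy i j with h | h | h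
    · exact absurd hij (key i j h)
    · exact h
    · exact absurd hij.symm (key j i h)
  let p : Fin 7 → Fin 7 → Fin 7 → Fin 7 → Prop := fun i j k l => P ![f i, f j, f k, f l]
  have rule7 : ∀ i j k l m : Fin 7, Function.Injective ![i, j, k, l, m] →
      Five (p i j k l) (p i j k m) (p i j l m) (p i k l m) (p j k l m) :=
    fun i j k l m h => hP.rule hw (t := f ∘ ![i, j, k, l, m]) (hf.comp h)
  have A1 : ¬ p 0 1 2 3 := w4
  have A2 : p 0 1 2 4 := w3
  have A3 : p 0 2 3 5 := hx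
  have A4 : p 0 2 3 6 := hy
  clear_value p
  have r1 := rule7 0 1 2 3 4 (by decide)
  have B1 := five_l1 r1 A1 A2
  have key : ∀ x : Fin 7, (x = 5 ∨ x = 6) → p 0 2 3 x → p 1 3 4 x ∧ ¬ p 0 3 4 x := by
    intro x hx hpx
    have hi1 : Function.Injective ![0, 1, 2, 3, x] := by rcases hx with rfl | rfl <;> decide
    have hi2 : Function.Injective ![0, 1, 2, 4, x] := by rcases hx with rfl | rfl <;> decide
    have hi3 : Function.Injective ![0, 2, 3, 4, x] := by rcases hx with rfl | rfl <;> decide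
    have hi4 : Function.Injective ![0, 1, 3, 4, x] := by rcases hx with rfl | rfl <;> decide
    have C2 := five_l2 (rule7 0 1 2 3 x hi1) A1 hpx
    have C3 := five_l3 (rule7 0 1 2 4 x hi2) A2 C2.1
    have C4 := five_l1 (rule7 0 2 3 4 x hi3) B1.2.1 hpx
    have C5 := five_l4 (rule7 0 1 3 4 x hi4) B1.1 C2.2.1 C3.1 C4.2.1
    exact ⟨C5, C4.2.1⟩
  have K5 := key 5 (Or.inl rfl) A3
  have K6 := key 6 (Or.inr rfl) A4
  have M1 := (five_l5 (rule7 1 3 4 5 6 (by decide)) K5.1 K6.1).2.2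
  have M2 := (five_l5 (rule7 0 2 3 5 6 (by decide)) A3 A4).2.1
  exact five_l6 (rule7 0 3 4 5 6 (by decide)) K5.2 M2 M1

end

end Pool.Agent.Lib.MP_3f2714_al
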