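import Mathlib
import Pool.Agent.Lib.MP_3f2714_al.Recog2
import Pool.Agent.Lib.MP_3f2714_al.Final

namespace Pool.Agent.Lib.MP_3f2714_al

set_option linter.unusedSectionVars false

universe u

section

variable {Ω : Type u} {G : Subgroup (Equiv.Perm Ω)} {P : (Fin 4 → Ω) → Prop}

/-- blocks -/
def Blk (P : (Fin 4 → Ω) → Prop) (a b c d : Ω) : Prop :=
  Function.Injective ![a, b, c, d] ∧ P ![a, b, c, d]

theorem inj4_iff {a b c d : Ω} : Function.Injective ![a, b, c, d] ↔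
    a ≠ b ∧ a ≠ c ∧ a ≠ d ∧ b ≠ c ∧ b ≠ d ∧ c ≠ d := by
  constructor
  · intro h
    refine ⟨fun e => ?_, fun e => ?_, fun e => ?_, fun e => ?_, fun e => ?_, fun e => ?_⟩
    · exact absurd (@h 0 1 e) (by decide)
    · exact absurd (@h 0 2 e) (by decide)
    · exact absurd (@h 0 3 e) (by decide)
    · exact absurd (@h 1 2 e) (by decide)
    · exact absurd (@h 1 3 e) (by decide)
    · exact absurd (@h 2 3 e) (by decide)
  · rintro ⟨h1, h2, h3, h4, h5, h6⟩ i j
    fin_cases i <;> fin_cases j <;> simp [h1, h2, h3, h4, h5, h6, h1.symm, h2.symm, h3.symm,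
      h4.symm, h5.symm, h6.symm]

theorem Blk.s1 (hP : GoodCol G P) {a b c d : Ω} (h : Blk P a b c d) : Blk P b a c d := by
  refine ⟨?_, (hP.p01 h.1).2 h.2⟩
  have := inj4_iff.1 h.1
  rw [inj4_iff]
  tauto

theorem Blk.s2 (hP : GoodCol G P) {a b c d : Ω} (h : Blk P a b c d) : Blk P a c b d := by
  refine ⟨?_, (hP.p12 h.1).2 h.2⟩
  have := inj4_iff.1 h.1
  rw [inj4_iff]
  obtain ⟨h1, h2, h3, h4, h5, h6⟩ := this
  exact ⟨h2, h1, h3, h4.symm, h6, h5⟩

theorem Blk.s3 (hP : GoodCol G P) {a b c d : Ω} (h : Blk P a b c d) : Blk P a b d c := by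
  refine ⟨?_, (hP.p23 h.1).2 h.2⟩
  have := inj4_iff.1 h.1
  rw [inj4_iff]
  obtain ⟨h1, h2, h3, h4, h5, h6⟩ := this
  exact ⟨h1, h3, h2, h5, h4, h6.symm⟩

theorem Blk.inv (hP : GoodCol G P) {g : Equiv.Perm Ω} (hg : g ∈ G) {a b c d : Ω}
    (h : Blk P a b c d) : Blk P (g a) (g b) (g c) (g d) := by
  have e : ![g a, g b, g c, g d] = g ∘ ![a, b, c, d] := by
    funext i
    fin_cases i <;> rfl
  refine ⟨?_, ?_⟩
  · rw [e]
    exact g.injective.comp h.1
  · refine (hP.inv _ _ ⟨g, hg, fun i => ?_⟩).1 h.2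
    rw [e]
    rfl

theorem Blk.ex (hP : GoodCol G P) (h3 : F G 3 = 1) {a b c : Ω} (h1 : a ≠ b) (h2 : a ≠ c)
    (h4 : b ≠ c) : ∃ d, Blk P a b c d := by
  obtain ⟨w, hw, hPw⟩ := hP.exT
  have hinj : Function.Injective ![a, b, c] := by
    intro i j
    fin_cases i <;> fin_cases j <;> simp [h1, h2, h4, h1.symm, h2.symm, h4.symm]
  obtain ⟨g, hg, h⟩ := sameOrbit_of_F_eq_one h3 (a := w ∘ ![0, 1, 2]) (hw.comp (by decide)) hinj
  have g0 : g (w 0) = a := h 0
  have g1 : g (w 1) = b := h 1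
  have g2 : g (w 2) = c := h 2
  have hb : Blk P (w 0) (w 1) (w 2) (w 3) := by
    unfold Blk
    rw [vec4_eta]
    exact ⟨hw, hPw⟩
  have := hb.inv hP hg
  rw [g0, g1, g2] at this
  exact ⟨_, this⟩

theorem GoodCol.weights' (hP : GoodCol G P) (h3 : F G 3 = 1) (h5 : F G 5 ≤ 6)
    (h5' : F G 5 ≠ 0) {t : Fin 5 → Ω} (ht : Function.Injective t) :
    (∃ i, Pat P t = fun j => decide (j = i)) ∨ Pat P t = (fun _ => false) := by
  rcases hP.weights h5 h5' ht with h | h | h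
  · exact Or.inl (wt_one_iff _ h)
  · exact Or.inr h
  · exact (hP.no_complete h3 h5 h5' ht h).elim

theorem Blk.uni (hP : GoodCol G P) (h3 : F G 3 = 1) (h5 : F G 5 ≤ 6) (h5' : F G 5 ≠ 0)
    {a b c d e : Ω} (h : Blk P a b c d) (h' : Blk P a b c e) : d = e := by
  by_contra hde
  have ht := inj_five h.1 h'.1 hde
  obtain ⟨v4, v3, _, _, _⟩ := hP.vals ht
  have e4 := v4.2 h.2
  have e3 := v3.2 h'.2
  rcases hP.weights' h3 h5 h5' ht with ⟨i, hi⟩ | h0
  · rw [hi] at e4 e3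
    simp only [decide_eq_true_eq] at e4 e3
    rw [← e4] at e3
    exact absurd e3 (by decide)
  · rw [h0] at e4
    exact absurd e4 (by decide)

/-- a 5-tuple without blocks -/
theorem exists_free [Infinite Ω] (hP : GoodCol G P) (h3 : F G 3 = 1) (h5 : F G 5 ≤ 6)
    (h5' : F G 5 ≠ 0) : ∃ z : Fin 5 → Ω, Function.Injective z ∧
      Pat P z = (fun _ => false) := by
  classical
  obtain ⟨w, hw, hPw⟩ := hP.exT
  set a := w 0
  set b := w 1
  set c := w 2
  set d := w 3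
  have hb : Blk P a b c d := by
    unfold Blk
    rw [vec4_eta]
    exact ⟨hw, hPw⟩
  obtain ⟨hab, hac, had, hbc, hbd, hcd⟩ := inj4_iff.1 hb.1
  obtain ⟨e, he⟩ := Infinite.exists_notMem_finset ({a, b, c, d} : Finset Ω)
  simp only [Finset.mem_insert, Finset.mem_singleton, not_or] at he
  obtain ⟨hea, heb, hec, hed⟩ := he
  obtain ⟨p, hp⟩ := Blk.ex hP h3 hab (Ne.symm hea) (Ne.symm heb)
  obtain ⟨q, hq⟩ := Blk.ex hP h3 hac (Ne.symm hea) (Ne.symm hec)
  obtain ⟨s, hs⟩ := Blk.ex hP h3 hbc (Ne.symm heb) (Ne.symm hec)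
  obtain ⟨x, hx⟩ := Infinite.exists_notMem_finset ({a, b, c, e, d, p, q, s} : Finset Ω)
  simp only [Finset.mem_insert, Finset.mem_singleton, not_or] at hx
  obtain ⟨hxa, hxb, hxc, hxe, hxd, hxp, hxq, hxs⟩ := hx
  have i1 : Function.Injective ![a, b, c, e] :=
    inj4_iff.2 ⟨hab, hac, Ne.symm hea, hbc, Ne.symm heb, Ne.symm hec⟩
  have i2 : Function.Injective ![a, b, c, x] :=
    inj4_iff.2 ⟨hab, hac, Ne.symm hxa, hbc, Ne.symm hxb, Ne.symm hxc⟩
  have i3 : Function.Injective ![a, b, e, x] :=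
    inj4_iff.2 ⟨hab, Ne.symm hea, Ne.symm hxa, Ne.symm heb, Ne.symm hxb, Ne.symm hxe⟩
  have i4 : Function.Injective ![a, c, e, x] :=
    inj4_iff.2 ⟨hac, Ne.symm hea, Ne.symm hxa, Ne.symm hec, Ne.symm hxc, Ne.symm hxe⟩
  have i5 : Function.Injective ![b, c, e, x] :=
    inj4_iff.2 ⟨hbc, Ne.symm heb, Ne.symm hxb, Ne.symm hec, Ne.symm hxc, Ne.symm hxe⟩
  have ht := inj_five i1 i2 (Ne.symm hxe)
  refine ⟨_, ht, ?_⟩
  obtain ⟨v4, v3, v2, v1, v0⟩ := hP.vals ht
  have n4 : ¬ P ![a, b, c, e] := fun h => hed ((Blk.uni hP h3 h5 h5' ⟨i1, h⟩ hb))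
  have n3 : ¬ P ![a, b, c, x] := fun h => hxd ((Blk.uni hP h3 h5 h5' ⟨i2, h⟩ hb))
  have n2 : ¬ P ![a, b, e, x] := fun h => hxp ((Blk.uni hP h3 h5 h5' ⟨i3, h⟩ hp))
  have n1 : ¬ P ![a, c, e, x] := fun h => hxq ((Blk.uni hP h3 h5 h5' ⟨i4, h⟩ hq))
  have n0 : ¬ P ![b, c, e, x] := fun h => hxs ((Blk.uni hP h3 h5 h5' ⟨i5, h⟩ hs))
  funext i
  apply Bool.eq_false_iff.2
  fin_cases i
  · exact fun h => n0 (v0.1 h)
  · exact fun h => n1 (v1.1 h)
  · exact fun h => n2 (v2.1 h)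
  · exact fun h => n3 (v3.1 h)
  · exact fun h => n4 (v4.1 h)

theorem pat_of_block (hP : GoodCol G P) (h3 : F G 3 = 1) (h5 : F G 5 ≤ 6) (h5' : F G 5 ≠ 0)
    {t : Fin 5 → Ω} (ht : Function.Injective t) (hb : P ![t 0, t 1, t 2, t 3]) :
    Pat P t = fun j => decide (j = 4) := by
  obtain ⟨v4, _, _, _, _⟩ := hP.vals ht
  have e4 := v4.2 hb
  rcases hP.weights' h3 h5 h5' ht with ⟨i, hi⟩ | h0
  · rw [hi] at e4
    simp only [decide_eq_true_eq] at e4
    rw [hi, ← e4]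
  · rw [h0] at e4
    exact absurd e4 (by decide)

theorem rot_pat_inj : ∀ k l : Fin 5, (fun i : Fin 5 => decide (i + k = 4)) =
    (fun i : Fin 5 => decide (i + l = 4)) → k = l := by
  decide

/-- any two 5-tuples starting with a block are equivalent -/
theorem equiv5 [Infinite Ω] (hP : GoodCol G P) (h3 : F G 3 = 1) (h5 : F G 5 ≤ 6)
    (h5' : F G 5 ≠ 0) {t s : Fin 5 → Ω} (ht : Function.Injective t)
    (hs : Function.Injective s) (hbt : P ![t 0, t 1, t 2, t 3])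
    (hbs : P ![s 0, s 1, s 2, s 3]) : SameOrbit G t s := by
  by_contra hts
  obtain ⟨z, hz, hz0⟩ := exists_free hP h3 h5 h5'
  have pt := pat_of_block hP h3 h5 h5' ht hbt
  have ps := pat_of_block hP h3 h5 h5' hs hbs
  have prot : ∀ k : Fin 5, Pat P (fun i => t (i + k)) = fun i => decide (i + k = 4) := by
    intro k
    rw [pat_rot, pt]
  let T : Option (Option (Fin 5)) → Fin 5 → Ω := fun o => match o with
    | none => s
    | some none => z
    | some (some k) => fun i => t (i + k)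
  have hnz : ∀ k : Fin 5, (fun i : Fin 5 => decide (i + k = 4)) ≠ fun _ => false := by decide
  have hn4 : (fun i : Fin 5 => decide (i = 4)) ≠ fun _ => false := by decide
  have hk0 : ∀ k : Fin 5, (fun i : Fin 5 => decide (i + k = 4)) =
    (fun i : Fin 5 => decide (i = 4)) → k = 0 := by decide
  have htk : ∀ k : Fin 5, SameOrbit G (fun i => t (i + k)) s → False := by
    intro k h
    have h1 := pat_of_sameOrbit hP.inv h
    rw [prot, ps] at h1
    have h2 := hk0 k h1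
    subst h2
    simp only [add_zero] at h
    exact hts h
  have := card_le_F (G := G) (n := 5) (ι := Option (Option (Fin 5))) h5' T (by
    rintro (_ | _ | k)
    · exact hs
    · exact hz
    · exact ht.comp (rot_injective k)) (by
    rintro (_ | _ | k) (_ | _ | l) h
    · rfl
    · have h1 := pat_of_sameOrbit hP.inv h
      change Pat P s = Pat P z at h1
      rw [ps, hz0] at h1
      exact absurd h1 hn4
    · exact (htk l h.symm).elim
    · have h1 := pat_of_sameOrbit hP.inv h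
      change Pat P z = Pat P s at h1
      rw [ps, hz0] at h1
      exact absurd h1.symm hn4
    · rfl
    · have h1 := pat_of_sameOrbit hP.inv h
      change Pat P z = Pat P (fun i => t (i + l)) at h1
      rw [prot, hz0] at h1
      exact absurd h1.symm (hnz l)
    · exact (htk k h).elim
    · have h1 := pat_of_sameOrbit hP.inv h
      change Pat P (fun i => t (i + k)) = Pat P z at h1
      rw [prot, hz0] at h1
      exact absurd h1 (hnz k)
    · have h1 := pat_of_sameOrbit hP.inv h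
      change Pat P (fun i => t (i + k)) = Pat P (fun i => t (i + l)) at h1
      rw [prot, prot] at h1
      rw [rot_pat_inj k l h1])
  have h7 : Nat.card (Option (Option (Fin 5))) = 7 := by simp
  omega

/-- The new points determined by a block and a further point. -/
theorem new_point (hP : GoodCol G P) (h3 : F G 3 = 1) (h5 : F G 5 ≤ 6) (h5' : F G 5 ≠ 0)
    {p q s t e y : Ω} (hb : Blk P p q s t) (hes : e ≠ s) (het : e ≠ t) (hy : Blk P p q e y) :
    y ≠ p ∧ y ≠ q ∧ y ≠ s ∧ y ≠ t ∧ y ≠ e := by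
  obtain ⟨_, _, h1, _, h2, h4⟩ := inj4_iff.1 hy.1
  refine ⟨h1.symm, h2.symm, ?_, ?_, h4.symm⟩
  · intro h
    rw [h] at hy
    exact het (Blk.uni hP h3 h5 h5' (hy.s3 hP) hb)
  · intro h
    rw [h] at hy
    exact hes (Blk.uni hP h3 h5 h5' (hy.s3 hP) (hb.s3 hP))

theorem share (hP : GoodCol G P) (h3 : F G 3 = 1) (h5 : F G 5 ≤ 6) (h5' : F G 5 ≠ 0)
    {p q q' e y y' : Ω} (h : Blk P p q e y) (h' : Blk P p q' e y') (hq : q ≠ q') : y ≠ y' := by
  intro hy
  subst hy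
  exact hq (Blk.uni hP h3 h5 h5' ((h.s2 hP).s3 hP) ((h'.s2 hP).s3 hP) |> fun e => by
    exact e)

end

end Pool.Agent.Lib.MP_3f2714_al
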