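import Mathlib
import Pool.Agent.Lib.MP_3f2714_al.Recog3

namespace Pool.Agent.Lib.MP_3f2714_al

set_option linter.unusedSectionVars false

universe u

section

variable {Ω : Type u} {G : Subgroup (Equiv.Perm Ω)} {P : (Fin 4 → Ω) → Prop}

theorem six_pairs {y : Fin 6 → Ω} (h01 : y 0 ≠ y 1) (h02 : y 0 ≠ y 2) (h03 : y 0 ≠ y 3)
    (h04 : y 0 ≠ y 4) (h05 : y 0 ≠ y 5) (h12 : y 1 ≠ y 2) (h13 : y 1 ≠ y 3) (h14 : y 1 ≠ y 4)
    (h15 : y 1 ≠ y 5) (h23 : y 2 ≠ y 3) (h24 : y 2 ≠ y 4) (h25 : y 2 ≠ y 5) (h34 : y 3 ≠ y 4)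
    (h35 : y 3 ≠ y 5) (h45 : y 4 ≠ y 5) : Function.Injective y := by
  have key : ∀ i j : Fin 6, i < j → y i ≠ y j := by
    intro i j hij
    fin_cases i <;> fin_cases j <;> first
      | exact absurd hij (by decide)
      | assumption
  intro i j hij
  rcases lt_trichotomy i j with h | h | h
  · exact absurd hij (key i j h)
  · exact h
  · exact absurd hij.symm (key j i h)

theorem vec5_inj {a b c d e : Ω} (h : Function.Injective ![a, b, c, d]) (hea : e ≠ a)
    (heb : e ≠ b) (hec : e ≠ c) (hed : e ≠ d) : Function.Injective ![a, b, c, d, e] := by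
  refine inj_five h ?_ hed.symm
  have := inj4_iff.1 h
  exact inj4_iff.2 ⟨this.1, this.2.1, hea.symm, this.2.2.2.1, heb.symm, hec.symm⟩

theorem blk_bool [Infinite Ω] (hP : GoodCol G P) (h3 : F G 3 = 1) (h5 : F G 5 ≤ 6)
    (h5' : F G 5 ≠ 0) (h6 : F G 6 ≤ 32) (h6' : F G 6 ≠ 0) {a b c d e x : Ω}
    (hb : Blk P a b c d) (hea : e ≠ a) (heb : e ≠ b) (hec : e ≠ c) (hed : e ≠ d)
    (hx : Blk P a b e x) : Blk P c d e x := by
  classical
  by_contra hcon
  have uni := fun {a b c d e : Ω} (h : Blk P a b c d) (h' : Blk P a b c e) =>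
    Blk.uni hP h3 h5 h5' h h'
  have hab := (inj4_iff.1 hb.1).1
  have hac := (inj4_iff.1 hb.1).2.1
  have had := (inj4_iff.1 hb.1).2.2.1
  have hbc := (inj4_iff.1 hb.1).2.2.2.1
  have hbd := (inj4_iff.1 hb.1).2.2.2.2.1
  have hcd := (inj4_iff.1 hb.1).2.2.2.2.2
  obtain ⟨y, hy⟩ := Blk.ex hP h3 hcd hec.symm hed.symm
  have hxy : x ≠ y := by
    intro h
    rw [← h] at hy
    exact hcon hy
  -- the other orderings of the block
  have b1 : Blk P a c b d := hb.s2 hP
  have b2 : Blk P a d c b := ((hb.s3 hP).s2 hP).s3 hP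
  have b3 : Blk P c d a b := ((((hb.s2 hP).s1 hP).s3 hP).s2 hP)
  have b4 : Blk P b d a c := (((hb.s1 hP).s3 hP).s2 hP)
  have b5 : Blk P c b a d := (((hb.s2 hP).s1 hP).s2 hP)
  have ht := vec5_inj hb.1 hea heb hec hed
  have ht1 := vec5_inj b1.1 hea hec heb hed
  have ht2 := vec5_inj b2.1 hea hed hec heb
  obtain ⟨g, hg, hgt⟩ := equiv5 hP h3 h5 h5' ht ht1 hb.2 b1.2
  have ga : g a = a := hgt 0
  have gb : g b = c := hgt 1
  have gc : g c = b := hgt 2
  have gd : g d = d := hgt 3
  have ge : g e = e := hgt 4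
  obtain ⟨k, hk, hkt⟩ := equiv5 hP h3 h5 h5' ht ht2 hb.2 b2.2
  have ka : k a = a := hkt 0
  have kb : k b = d := hkt 1
  have kc : k c = c := hkt 2
  have kd : k d = b := hkt 3
  have ke : k e = e := hkt 4
  have x2 := hx.inv hP hg
  rw [ga, gb, ge] at x2
  have y2 := hy.inv hP hg
  rw [gc, gd, ge] at y2
  have x3 := hx.inv hP hk
  rw [ka, kb, ke] at x3
  have y3 := hy.inv hP hk
  rw [kc, kd, ke] at y3
  have n23 : g x ≠ g y := fun h => hxy (g.injective h)
  have n45 : k x ≠ k y := fun h => hxy (k.injective h)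
  -- six fixed points
  have sh := fun {p q q' e y y' : Ω} (h : Blk P p q e y) (h' : Blk P p q' e y') (hq : q ≠ q') =>
    share hP h3 h5 h5' h h' hq
  let w : Fin 6 → Ω := ![x, y, g x, g y, k x, k y]
  have hw : Function.Injective w := by
    apply six_pairs
    · exact hxy
    · exact sh hx x2 hbc
    · exact sh (hx.s1 hP) y2 had
    · exact sh hx x3 hbd
    · exact sh (hx.s1 hP) (y3.s1 hP) hac
    · exact sh hy (x2.s1 hP) had.symm
    · exact sh (hy.s1 hP) (y2.s1 hP) hbc.symm
    · exact sh (hy.s1 hP) (x3.s1 hP) hac.symm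
    · exact sh hy y3 hbd.symm
    · exact n23
    · exact sh x2 x3 hcd
    · exact sh (x2.s1 hP) y3 hab
    · exact sh (y2.s1 hP) (x3.s1 hP) hab.symm
    · exact sh y2 (y3.s1 hP) hcd.symm
    · exact n45
  have hnew : ∀ i : Fin 6, w i ≠ a ∧ w i ≠ b ∧ w i ≠ c ∧ w i ≠ d ∧ w i ≠ e := by
    intro i
    fin_cases i
    · exact new_point hP h3 h5 h5' hb hec hed hx
    · obtain ⟨m1, m2, m3, m4, m5⟩ := new_point hP h3 h5 h5' b3 hea heb hy
      exact ⟨m3, m4, m1, m2, m5⟩
    · obtain ⟨m1, m2, m3, m4, m5⟩ := new_point hP h3 h5 h5' b1 heb hed x2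
      exact ⟨m1, m3, m2, m4, m5⟩
    · obtain ⟨m1, m2, m3, m4, m5⟩ := new_point hP h3 h5 h5' b4 hea hec y2
      exact ⟨m3, m1, m4, m2, m5⟩
    · obtain ⟨m1, m2, m3, m4, m5⟩ := new_point hP h3 h5 h5' b2 hec heb x3
      exact ⟨m1, m4, m3, m2, m5⟩
    · obtain ⟨m1, m2, m3, m4, m5⟩ := new_point hP h3 h5 h5' b5 hea hed y3
      exact ⟨m3, m2, m1, m4, m5⟩
  have hfix : ∀ i : Fin 6, ∀ g ∈ G, g a = a → g b = b → g c = c → g d = d → g e = e →
      g (w i) = w i := by
    intro i g hg ga gb gc gd ge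
    have hf : ∀ p q v : Ω, g p = p → g q = q → Blk P p q e v → g v = v := by
      intro p q v gp gq hv
      have h8 := hv.inv hP hg
      rw [gp, gq, ge] at h8
      exact uni h8 hv
    fin_cases i
    · exact hf _ _ _ ga gb hx
    · exact hf _ _ _ gc gd hy
    · exact hf _ _ _ ga gc x2
    · exact hf _ _ _ gb gd y2
    · exact hf _ _ _ ga gd x3
    · exact hf _ _ _ gc gb y3
  -- a generic point
  obtain ⟨z, hz⟩ := Infinite.exists_notMem_finset
    (({a, b, c, d, e} : Finset Ω) ∪ Finset.univ.image w)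
  simp only [Finset.mem_union, Finset.mem_insert, Finset.mem_singleton, Finset.mem_image,
    Finset.mem_univ, true_and, not_or, not_exists] at hz
  obtain ⟨⟨hza, hzb, hzc, hzd, hze⟩, hzw⟩ := hz
  let t : Fin 5 → Ω := ![a, b, c, d, e]
  let Y : Fin 7 → Ω := Fin.snoc w z
  have hY : Function.Injective Y := snoc_injective hw hzw
  have htY : ∀ (i : Fin 5) (j : Fin 7), t i ≠ Y j := by
    intro i j
    refine Fin.lastCases ?_ (fun j => ?_) j
    · simp only [Y, Fin.snoc_last]
      fin_cases i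
      · exact Ne.symm hza
      · exact Ne.symm hzb
      · exact Ne.symm hzc
      · exact Ne.symm hzd
      · exact Ne.symm hze
    · simp only [Y, Fin.snoc_castSucc]
      obtain ⟨n1, n2, n3, n4, n5⟩ := hnew j
      fin_cases i
      · exact n1.symm
      · exact n2.symm
      · exact n3.symm
      · exact n4.symm
      · exact n5.symm
  have hpt := pat_of_block hP h3 h5 h5' ht hb.2
  have := card_le_F (G := G) (n := 6) (ι := Fin 5 × Fin 7) h6'
    (fun kj => (Fin.snoc (fun i => t (i + kj.1)) (Y kj.2) : Fin 6 → Ω)) (by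
      rintro ⟨k, j⟩
      exact snoc_injective (ht.comp (rot_injective k)) (fun i => htY _ _)) (by
      rintro ⟨k, j⟩ ⟨k', j'⟩ h
      obtain ⟨g, hg, h⟩ := h
      have h1 : SameOrbit G (fun i => t (i + k)) (fun i => t (i + k')) := by
        refine ⟨g, hg, fun i => ?_⟩
        have := h (Fin.castSucc i)
        simpa only [Fin.snoc_castSucc] using this
      have h2 := pat_of_sameOrbit hP.inv h1
      rw [pat_rot, pat_rot, hpt] at h2
      have hkk := rot_pat_inj k k' h2
      subst hkk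
      have h4 : ∀ i, g (t i) = t i := by
        intro i
        have := h (Fin.castSucc (i - k))
        simpa only [Fin.snoc_castSucc, sub_add_cancel] using this
      have h7 : g (Y j) = Y j' := by
        have := h (Fin.last 5)
        simpa only [Fin.snoc_last] using this
      have hfix' : ∀ i : Fin 6, g (Y i.castSucc) = Y i.castSucc := by
        intro i
        simp only [Y, Fin.snoc_castSucc]
        exact hfix i g hg (h4 0) (h4 1) (h4 2) (h4 3) (h4 4)
      have hjj : j = j' := by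
        revert h7
        refine Fin.lastCases ?_ (fun i => ?_) j
        · refine Fin.lastCases ?_ (fun i' => ?_) j'
          · intro _; rfl
          · intro h7
            rw [← hfix' i'] at h7
            exact hY (g.injective h7)
        · intro h7
          rw [hfix' i] at h7
          exact hY h7
      rw [hjj])
  have h35 : Nat.card (Fin 5 × Fin 7) = 35 := by simp
  omega

/-- Recognition theorem: a permutation group with the first values of the F-sequence of
`AGL(∞, 2)` preserves the structure of an affine space over the field with two elements. -/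
theorem recognition [Infinite Ω] (h3 : F G 3 = 1) (h4 : F G 4 = 2) (h5 : F G 5 ≤ 6)
    (h5' : F G 5 ≠ 0) (h6 : F G 6 ≤ 32) (h6' : F G 6 ≠ 0) :
    ∃ (_ : AddCommGroup Ω) (_ : Module (ZMod 2) Ω), G ≤ affGroup Ω := by
  obtain ⟨P, hP⟩ := exists_goodCol h3 h4 h5 h5'
  have hB : BoolSys (Blk P) :=
    { ne := fun h => inj4_iff.1 h.1
      s1 := fun h => h.s1 hP
      s2 := fun h => h.s2 hP
      s3 := fun h => h.s3 hP
      ex := fun h1 h2 h4 => Blk.ex hP h3 h1 h2 h4
      uni := fun h h' => Blk.uni hP h3 h5 h5' h h'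
      bool := fun h1 h2 h3' h4 h5'' h7 =>
        blk_bool hP h3 h5 h5' h6 h6' h1 h2 h3' h4 h5'' h7 }
  obtain ⟨o⟩ : Nonempty Ω := inferInstance
  exact exists_group hB o G (fun g hg a b c d h => h.inv hP hg)

end

end Pool.Agent.Lib.MP_3f2714_al
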